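import Pool.Agent.Helper67.Stab.RelC
import Pool.Agent.Helper1.Stab.Comp2

/-! Classes over `R ∧ BU₊` that come from `R`, and the class of a loop. -/

open CategoryTheory Topology Filter Set Opposite

noncomputable section

namespace Pool.Agent.Helper67.Stab

open Pool.Agent.Helper1.Stab Pool.Agent.Helper63.Stab

theorem g_stab (P : GBiv) (κ l : Type) [Fintype κ] [Fintype l] :
    P.comp (P.J (GK.stab κ l)) (P.g (κ ⊕ l)) = P.g κ := by
  have h1 : GK.stab κ l = (GK.sumMap κ l).comp (((PMap.id (LC.G κ)).box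
      (PMap.ofPoint (K := LC.G l) (GK.base l))).comp (PMap.ofHomeo
        (Homeomorph.prodPUnit (LC.G κ) : (LC.G κ).prod LC.point ≃ₜ LC.G κ).symm)) := by
    ext v
    rfl
  have h2 : P.J ((PMap.id (LC.G κ)).box (PMap.ofPoint (K := LC.G l) (GK.base l))) =
      P.ltens (LC.G κ) (P.J (PMap.ofPoint (K := LC.G l) (GK.base l))) := by
    rw [ltens_J]
  have h3 : P.comp (P.ltens (LC.G κ) (P.J (PMap.ofPoint (K := LC.G l) (GK.base l))))
      (P.tens (P.g κ) (LC.G l)) = P.comp (P.tens (P.g κ) LC.point)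
        (P.ltens LC.point (P.J (PMap.ofPoint (K := LC.G l) (GK.base l)))) := (P.exch _ _).symm
  rw [h1, P.J_comp, P.J_comp, P.assoc, P.assoc, h2, g_sum', ← P.assoc (P.ltens _ _), h3, P.assoc,
    ← P.assoc (P.ltens LC.point _), ← ltens_comp, P.g_base, ltens_id, P.id_comp]
  have h4 := P.tens_point (P.g κ)
  have h5 : P.comp (P.tens (P.g κ) LC.point) (jh P.toBiv (Homeomorph.prodPUnit LC.point :
      LC.point.prod LC.point ≃ₜ LC.point)) = _ := h4
  refine (congrArg (fun t => P.comp _ t) h5).trans ?_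
  exact jh_symm_comp P.toBiv (K := (LC.G κ).prod LC.point) (L := LC.G κ)
    (Homeomorph.prodPUnit (LC.G κ)) (P.g κ)

variable {R : Biv} (P : PRTheory R)

/-- the class of an element at a stage -/
def lf {σ : Type} [Fintype σ] {L Z : LC} (y : R.Hom L ((LC.G σ).prod Z)) : P.Hom L Z :=
  P.comp (P.inc y) (P.comp (P.tens (P.g σ) Z) (jh P.toBiv (lu Z)))

theorem lf_stab {σ l : Type} [Fintype σ] [Fintype l] {L Z : LC} (y : R.Hom L ((LC.G σ).prod Z)) :
    lf P (R.comp y (R.tens (R.J (GK.stab σ l)) Z)) = lf P y := by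
  rw [lf, lf, P.inc_comp, P.inc_tens, P.inc_J, P.assoc, ← P.assoc (P.tens _ _), ← P.tens_comp,
    g_stab]

theorem lf_re {σ l : Type} [Fintype σ] [Fintype l] (e : σ ≃ l) {L Z : LC}
    (y : R.Hom L ((LC.G σ).prod Z)) :
    lf P (R.comp y (R.tens (jh R (K := LC.G σ) (L := LC.G l) (GK.reindex e)) Z)) = lf P y := by
  have h1 : P.comp (jh P.toBiv (K := LC.G σ) (L := LC.G l) (GK.reindex e)) (P.g l) = P.g σ :=
    P.g_reindex e
  rw [lf, lf, P.inc_comp, P.inc_tens, inc_jh, P.assoc, ← P.assoc (P.tens _ _), ← P.tens_comp, h1]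

theorem lf_pre {σ : Type} [Fintype σ] {K L Z : LC} (e : K ≃ₜ L) (y : R.Hom L ((LC.G σ).prod Z)) :
    lf P (R.comp (jh R e) y) = P.comp (jh P.toBiv e) (lf P y) := by
  rw [lf, lf, P.inc_comp, inc_jh, P.assoc]

/-- the product with an element of `R(V, G κ)` -/
theorem lf_mul {V L Z : LC} {κ σ : Type} [Fintype κ] [Fintype σ] (ρ : R.Hom V (LC.G κ))
    (y : R.Hom L ((LC.G σ).prod Z)) :
    P.comp (P.tens (P.comp (P.inc ρ) (P.g κ)) L) (P.comp (jh P.toBiv (lu L)) (lf P y)) =
      lf P (R.comp (R.tens ρ L) (R.comp (R.ltens (LC.G κ) y) (R.comp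
        (jh R (K := (LC.G κ).prod ((LC.G σ).prod Z)) (L := ((LC.G κ).prod (LC.G σ)).prod Z)
          (Homeomorph.prodAssoc (LC.G κ) (LC.G σ) Z).symm) (R.tens (R.J (GK.sumMap κ σ)) Z)))) := by
  have e1 : P.comp (jh P.toBiv (lu L)) (P.inc y) = P.comp (P.ltens LC.point (P.inc y))
      (jh P.toBiv (lu ((LC.G σ).prod Z))) := lu_nat (R := P.toBiv) (P.inc y)
  have e2 : P.comp (P.tens (P.g κ) L) (P.ltens LC.point (P.inc y)) =
      P.comp (P.ltens (LC.G κ) (P.inc y)) (P.tens (P.g κ) ((LC.G σ).prod Z)) := P.exch _ _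
  have e3 : P.comp (jh P.toBiv (K := (LC.G κ).prod ((LC.G σ).prod Z))
      (L := ((LC.G κ).prod (LC.G σ)).prod Z) (Homeomorph.prodAssoc (LC.G κ) (LC.G σ) Z).symm)
      (P.tens (P.tens (P.g κ) (LC.G σ)) Z) = P.comp (P.tens (P.g κ) ((LC.G σ).prod Z))
        (jh P.toBiv (K := LC.point.prod ((LC.G σ).prod Z))
      (L := (LC.point.prod (LC.G σ)).prod Z) (Homeomorph.prodAssoc LC.point (LC.G σ) Z).symm) := by
    rw [tens_tens_eq_pl, tens_eq_pl]
    exact pl_comm (R := P.toBiv) (P.g κ) (Homeomorph.refl _) _ _ _ _ _ _ (fun _ => rfl)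
      (fun _ => rfl)
  have e4 : P.comp (jh P.toBiv (K := LC.point.prod ((LC.G σ).prod Z))
      (L := (LC.point.prod (LC.G σ)).prod Z) (Homeomorph.prodAssoc LC.point (LC.G σ) Z).symm)
      (P.comp (P.tens (P.ltens LC.point (P.g σ)) Z) (P.comp (P.tens (jh P.toBiv
        (K := LC.point.prod LC.point) (L := LC.point) (Homeomorph.prodPUnit LC.point)) Z)
        (jh P.toBiv (lu Z)))) = P.comp (jh P.toBiv (lu ((LC.G σ).prod Z)))
        (P.comp (P.tens (P.g σ) Z) (jh P.toBiv (lu Z))) := by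
    rw [ltens_eq_pl, tens_pl, tens_jh, tens_eq_pl, ← jh_trans, pl_jh, jh_pl, pl_jh, jh_pl]
    exact pl_congr (R := P.toBiv) (P.g σ) (pS Z) _ _ _ _ (fun _ => rfl) (fun _ => rfl)
  rw [lf, lf, P.inc_comp, P.inc_comp, P.inc_comp, P.inc_tens, inc_ltens, inc_jh, P.inc_tens,
    P.inc_J, P.tens_comp]
  simp only [P.assoc]
  rw [← P.assoc (jh P.toBiv (lu L)), e1, P.assoc, ← P.assoc (P.tens (P.g κ) L), e2, P.assoc,
    ← P.assoc (P.tens (P.J (GK.sumMap κ σ)) Z), ← P.tens_comp, g_sum', P.tens_comp, P.tens_comp]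
  simp only [P.assoc]
  have e6 := congrArg (fun t => P.comp (P.tens (P.g κ) ((LC.G σ).prod Z)) t) e4.symm
  have e7 : P.comp (P.tens (P.g κ) ((LC.G σ).prod Z)) (P.comp
      (jh P.toBiv (K := LC.point.prod ((LC.G σ).prod Z))
      (L := (LC.point.prod (LC.G σ)).prod Z) (Homeomorph.prodAssoc LC.point (LC.G σ) Z).symm)
      (P.comp (P.tens (P.ltens LC.point (P.g σ)) Z) (P.comp (P.tens (jh P.toBiv
        (K := LC.point.prod LC.point) (L := LC.point) (Homeomorph.prodPUnit LC.point)) Z)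
        (jh P.toBiv (lu Z))))) = P.comp (jh P.toBiv (K := (LC.G κ).prod ((LC.G σ).prod Z))
      (L := ((LC.G κ).prod (LC.G σ)).prod Z) (Homeomorph.prodAssoc (LC.G κ) (LC.G σ) Z).symm)
      (P.comp (P.tens (P.tens (P.g κ) (LC.G σ)) Z)
      (P.comp (P.tens (P.ltens LC.point (P.g σ)) Z) (P.comp (P.tens (jh P.toBiv
        (K := LC.point.prod LC.point) (L := LC.point) (Homeomorph.prodPUnit LC.point)) Z)
        (jh P.toBiv (lu Z))))) := by
    rw [← P.assoc, ← e3, P.assoc]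
  exact congrArg (fun t => P.comp _ (P.comp _ t)) (e6.trans e7)

/-! ## Realisation of classes at a stage -/

variable {D : Datum} {ι : Type} [Fintype ι] {K Z U : LC} [Crd U]

theorem exists_rel_hat (y : R.Hom (U.prod K) ((LC.G (ι × Option D.a)).prod Z))
    (hd : dm (D.A ι) = Fintype.card (ι × Option D.u) + dm U) :
    ∃ Y : R.Hom ((D.A ι).prod K) ((D.B ι).prod Z), Rel (hat P Y) (lf P y) := by
  obtain ⟨a, ha⟩ := exists_isPerm (X := D.A ι) (Y := (LC.cpow (ι × Option D.u)).prod U) (by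
    rw [dm_prod]
    exact hd)
  refine ⟨R.comp (jh R (rp K a)) (R.comp (R.ltens (LC.cpow (ι × Option D.u)) y)
    (jh R (K := (LC.cpow (ι × Option D.u)).prod ((LC.G (ι × Option D.a)).prod Z))
      (L := (D.B ι).prod Z) (Homeomorph.prodAssoc (LC.cpow (ι × Option D.u))
        (LC.G (ι × Option D.a)) Z).symm)), ?_⟩
  have h0 : Rel (W := D.A ι) (W' := LC.cpow (ι × Option D.u)) (P.comp (jh P.toBiv (rp K a))
      (P.ltens (LC.cpow (ι × Option D.u)) (lf P y))) (lf P y) := ⟨a, ha, rfl⟩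
  have h1 := h0.perms (IsPerm.refl (D.A ι)) (W2' := SS D ι)
    (q := (Homeomorph.prodPUnit (LC.cpow (ι × Option D.u)) :
      (LC.cpow (ι × Option D.u)).prod LC.point ≃ₜ LC.cpow (ι × Option D.u)).symm)
    (IsPerm.prodPUnit _).symm
  have e1 : P.comp (jh P.toBiv (K := (LC.cpow (ι × Option D.u)).prod
      ((LC.G (ι × Option D.a)).prod Z)) (L := (D.B ι).prod Z) (Homeomorph.prodAssoc
        (LC.cpow (ι × Option D.u)) (LC.G (ι × Option D.a)) Z).symm)
      (P.tens (gh P.toGBiv D ι) Z) = P.comp (P.ltens (LC.cpow (ι × Option D.u))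
        (P.comp (P.tens (P.g (ι × Option D.a)) Z) (jh P.toBiv (lu Z))))
        (jh P.toBiv (K := (LC.cpow (ι × Option D.u)).prod Z) (L := (SS D ι).prod Z)
          ((Homeomorph.prodPUnit (LC.cpow (ι × Option D.u)) :
      (LC.cpow (ι × Option D.u)).prod LC.point ≃ₜ LC.cpow (ι × Option D.u)).symm.prodCongr
        (Homeomorph.refl Z))) := by
    rw [ltens_comp, ltens_jh, gh, ltens_eq_pl, tens_pl, tens_eq_pl, ltens_pl, P.assoc, ← jh_trans,
      pl_jh, jh_pl]
    exact pl_congr (R := P.toBiv) (P.g (ι × Option D.a)) (Homeomorph.refl _) _ _ _ _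
      (fun _ => rfl) (fun _ => rfl)
  have e2 : hat P (R.comp (jh R (rp K a)) (R.comp (R.ltens (LC.cpow (ι × Option D.u)) y)
    (jh R (K := (LC.cpow (ι × Option D.u)).prod ((LC.G (ι × Option D.a)).prod Z))
      (L := (D.B ι).prod Z) (Homeomorph.prodAssoc (LC.cpow (ι × Option D.u))
        (LC.G (ι × Option D.a)) Z).symm))) =
      P.comp (jh P.toBiv (K := (D.A ι).prod K) (L := (D.A ι).prod K)
        ((Homeomorph.refl (D.A ι)).prodCongr (Homeomorph.refl K)))
      (P.comp (P.comp (jh P.toBiv (rp K a)) (P.ltens (LC.cpow (ι × Option D.u)) (lf P y)))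
        (jh P.toBiv (K := (LC.cpow (ι × Option D.u)).prod Z) (L := (SS D ι).prod Z)
          ((Homeomorph.prodPUnit (LC.cpow (ι × Option D.u)) :
      (LC.cpow (ι × Option D.u)).prod LC.point ≃ₜ LC.cpow (ι × Option D.u)).symm.prodCongr
        (Homeomorph.refl Z)))) := by
    rw [jh_id P.toBiv (K := (D.A ι).prod K) (fun _ => rfl), P.id_comp, hat, P.inc_comp, P.inc_comp,
      inc_jh, inc_jh, inc_ltens]
    simp only [P.assoc]
    rw [e1, ← P.assoc (P.ltens _ (P.inc y)), ← ltens_comp]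
    rfl
  rw [e2]
  exact h1

/-! ## The transition class over the empty set -/

theorem like_shC_empty (P : GBiv) (D : Datum) (κ : Type) [Fintype κ] [IsEmpty κ] :
    Like (shC P D κ) (P.J (PMap.id LC.point)) := by
  obtain ⟨e1, he1⟩ : ∃ e1 : D.A κ ≃ₜ LC.point.prod (LC.cpow (κ × Option D.u)), IsPerm e1 := by
    refine exists_isPerm ?_
    rw [dm_prod, dm_point, dm_pi, dm_pi, Fintype.card_eq_zero, Fintype.card_eq_zero]
  have h1 : D.shat κ = (PMap.ltens (LC.cpow (κ × Option D.u)) (PMap.ofPoint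
      (K := LC.G (κ × Option D.a)) (GK.base (κ × Option D.a)))).comp
      ((PMap.ofHomeo (LC.swap LC.point (LC.cpow (κ × Option D.u)))).comp (PMap.ofHomeo e1)) := by
    refine PMap.ext fun v => ?_
    have hw : D.shat κ v = D.shatGFun κ (v, GK.base κ) := rfl
    have hp : ∀ i : κ, ∃ y : (D.u → ℂ) × GK D.a, D.s (fun j => v (i, some j)) =
        ((y : (D.u → ℂ) × GK D.a) : OnePoint ((D.u → ℂ) × GK D.a)) := fun i => isEmptyElim i
    rw [hw]
    unfold Datum.shatGFun
    rw [dif_pos hp]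
    have key : ∀ (a b : (LC.cpow (κ × Option D.u)).prod (LC.G (κ × Option D.a))),
        a = b := by
      intro a b
      refine Prod.ext ?_ ?_
      · funext i
        exact isEmptyElim i
      · refine Subtype.ext ?_
        ext i
        exact isEmptyElim i
    exact congrArg (fun z : (LC.cpow (κ × Option D.u)).prod (LC.G (κ × Option D.a)) =>
      (z : OnePoint ((LC.cpow (κ × Option D.u)).prod (LC.G (κ × Option D.a))))) (key _ _)
  have h2 : shC P D κ = P.comp (jh P.toBiv e1) (P.comp (P.tens (P.J (PMap.id LC.point))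
      (LC.cpow (κ × Option D.u))) (jh P.toBiv (LC.swap LC.point (LC.cpow (κ × Option D.u))))) := by
    rw [shC, h1, P.J_comp, P.J_comp, P.assoc, P.assoc, ← ltens_J, ← ltens_comp, P.g_base, ltens_id,
      P.comp_id, tens_id, P.id_comp]
    rfl
  rw [h2]
  exact (((Like.refl _).tens (LC.cpow (κ × Option D.u))).comp_jh
    (IsPerm.prodComm LC.point (LC.cpow (κ × Option D.u)))).jh_comp he1

/-! ## The class of a loop -/

theorem exists_loop_class {R : Biv} (P : PRTheory R) {e : ℕ} (he : 0 < e) {κ : Type} [Fintype κ]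
    (f : GenLoop (Fin (2 * e)) (GK κ) (GK.base κ)) (x : P.Hom (LC.cpow (Fin e)) LC.point)
    (hx : P.comp (P.J (collSph e)) x =
      P.comp (P.J (PMap.ofC (K := LC.sph e) (L := LC.G κ) (loopBar f))) (P.g κ) -
        P.J (PMap.toPoint (LC.sph e))) :
    ∃ ρ : R.Hom (LC.cpow (Fin e)) (LC.G κ), x = P.comp (P.inc ρ) (P.g κ) ∧
      Like (P.comp (P.J (loopDatum f).s) (P.ltens (LC.cpow (loopDatum f).u)
        (P.g (loopDatum f).a))) x := by
  obtain ⟨ρ, h1, h2⟩ := exists_rho R he f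
  have e0 : ∀ {K L : LC} (a b : R.Hom K L), P.inc (a - b) = P.inc a - P.inc b := by
    intro K L a b
    have h := P.inc_add (a - b) b
    rw [sub_add_cancel] at h
    rw [h, add_sub_cancel_right]
  have e1 : P.comp (P.J (collSph e)) (P.comp (P.inc ρ) (P.g κ)) = P.comp (P.J (collSph e)) x := by
    have h3 := congrArg P.inc h1
    rw [P.inc_comp, P.inc_J, e0, P.inc_J, P.inc_J] at h3
    rw [← P.assoc, h3, hx]
    have h4 : ∀ {K L M : LC} (a b : P.Hom K L) (c : P.Hom L M),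
        P.comp (a - b) c = P.comp a c - P.comp b c := by
      intro K L M a b c
      have h := P.add_comp (a - b) b c
      rw [sub_add_cancel] at h
      rw [h, add_sub_cancel_right]
    rw [h4]
    congr 1
    have h5 : PMap.ofC (K := LC.sph e) (L := LC.G κ) (ContinuousMap.const _ (GK.base κ)) =
        (PMap.ofPoint (K := LC.G κ) (GK.base κ)).comp (PMap.toPoint (LC.sph e)) := by
      ext v
      rfl
    rw [h5, P.J_comp, P.assoc, P.g_base, P.comp_id]
  have e2 := collSph_injective P.toBiv e1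
  refine ⟨ρ, e2.symm, ?_⟩
  rw [← e2]
  refine cs_datum (R := P.toGBiv) f (P.inc ρ) ?_
  refine (P.inc_J _).symm.trans ((congrArg P.inc h2).trans ?_)
  exact (P.inc_comp _ _).trans (congrArg₂ P.comp (P.inc_J _) ((P.inc_comp _ _).trans
    (congrArg₂ P.comp (inc_ltens P _ _) (P.inc_J _))))

end Pool.Agent.Helper67.Stab
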