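import Pool.Agent.Helper1.Stab.T.Op

/-! Project T: auxiliary lemmas for the induction over the elements of a localised theory. -/

open CategoryTheory Topology Filter Set Opposite

noncomputable section

namespace Pool.Agent.Helper67.Stab.TInd

open Pool.Agent.Helper1.Stab Pool.Agent.Helper63.Stab Pool.Agent.Helper67.Stab

section
variable {R : Biv} {L : LC}

theorem pl_aux {K W W' M V : LC} (x : R.Hom K (L.prod W)) (p : M ≃ₜ K.prod V)
    (q : L.prod W' ≃ₜ (L.prod W).prod V) (r : W' ≃ₜ W.prod V)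
    (hq : ∀ v, q v = ((v.1, (r v.2).1), (r v.2).2)) :
    R.comp (R.tens x V) (jh R (Pool.Agent.Helper1.Stab.ascH L W V)) =
      R.comp (R.J (PMap.ofHomeo p.symm)) (R.comp (pl R x p q)
        (R.J (PMap.ltens L (PMap.ofHomeo r)))) := by
  rw [← ltens_J, jh_def, jh_def, ltens_jh, pl_jh, jh_pl, tens_eq_pl, pl_jh]
  refine (pl_congr x (Homeomorph.refl V) _ _ _ _ (fun m => ?_) (fun n => ?_)).symm
  · change p (p.symm m) = m
    exact p.apply_symm_apply m
  · obtain ⟨l, w, v⟩ := n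
    change q (l, r.symm (w, v)) = ((l, w), v)
    rw [hq]
    change ((l, (r (r.symm (w, v))).1), (r (r.symm (w, v))).2) = ((l, w), v)
    rw [r.apply_symm_apply]

theorem mulx_zero {K Z : LC} {V : LC} (a : R.Hom V LC.point) (x : R.Hom K Z) :
    R.comp (jh R (LC.lunit K).symm) (R.mulx (NC67.xp a 0) x) = x := by
  have h : R.mulx (NC67.xp a 0) x =
      R.comp (R.tens (R.J (PMap.id LC.point)) K) (R.comp (jh R (LC.lunit K)) x) := rfl
  rw [h, tens_id, R.id_comp, jh_symm_comp]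

theorem mulx_mulP {U1 U2 K Z : LC} (ξ : R.Hom U1 LC.point) (ξ' : R.Hom U2 LC.point)
    (x : R.Hom K Z) : R.comp (jh R (K := U1.prod (U2.prod K)) (L := (U1.prod U2).prod K)
      (Homeomorph.prodAssoc U1 U2 K).symm) (R.mulx (mulP ξ ξ') x) = R.mulx ξ (R.mulx ξ' x) := by
  have h1 : R.mulx (mulP ξ ξ') x = R.comp (R.tens (R.comp (R.tens ξ U2)
      (R.comp (jh R (lu U2)) ξ')) K) (R.comp (jh R (LC.lunit K)) x) := rfl
  have h2 : R.mulx ξ (R.mulx ξ' x) = R.comp (R.tens ξ (U2.prod K)) (R.comp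
      (jh R (LC.lunit (U2.prod K))) (R.comp (R.tens ξ' K) (R.comp (jh R (LC.lunit K)) x))) := rfl
  have h3 : R.comp (R.tens (R.tens ξ U2) K) (R.tens (jh R (lu U2)) K) =
      R.comp (jh R (K := (U1.prod U2).prod K) (L := U1.prod (U2.prod K))
        (Homeomorph.prodAssoc U1 U2 K)) (R.comp (R.tens ξ (U2.prod K))
          (jh R (LC.lunit (U2.prod K)))) := by
    rw [tens_jh, tens_tens_eq_pl, pl_jh, tens_eq_pl ξ (U2.prod K), pl_jh, jh_pl]
    exact pl_congr ξ (Homeomorph.refl _) _ _ _ _ (fun _ => rfl) (fun _ => rfl)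
  rw [h1, h2, R.tens_comp, R.tens_comp, ← R.assoc (R.tens (R.tens ξ U2) K), h3]
  simp only [R.assoc]
  exact jh_symm_comp R (K := (U1.prod U2).prod K) (L := U1.prod (U2.prod K))
    (Homeomorph.prodAssoc U1 U2 K) _

/-- a placed class times a class -/
theorem mulx_pl {U1 K Z W2 A S T : LC} (ξ : R.Hom U1 LC.point) (x : R.Hom K Z)
    (p : A ≃ₜ U1.prod W2) (q : S ≃ₜ LC.point.prod W2) (c : S.prod Z ≃ₜ T) :
    R.comp (R.comp (R.tens (pl R ξ p q) K) (R.ltens S x)) (jh R c) =
      pl R (R.mulx ξ x) ((rp K p).trans (LC.rs U1 K W2).symm)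
        (c.symm.trans ((LC.swap S Z).trans ((Homeomorph.refl Z).prodCongr (q.trans (lu W2)) :
          Z.prod S ≃ₜ Z.prod W2))) := by
  have h1 : R.mulx ξ x = R.comp (R.tens ξ K) (R.comp (jh R (LC.lunit K)) x) := rfl
  rw [h1, ← pl_comp (R.tens ξ K) (R.comp (jh R (LC.lunit K)) x) _
    ((rp K q).trans (LC.rs LC.point K W2).symm) _, R.assoc]
  congr 1
  · rw [pl_tens, tens_pl]
    exact (pl_congr ξ (LC.swap W2 K) _ _ _ _ (fun _ => rfl) (fun _ => rfl)).symm
  · rw [pl_inside, ltens_eq_pl, pl_jh]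
    exact (pl_congr x (q.trans (lu W2)) _ _ _ _ (fun _ => rfl) (fun _ => rfl)).symm

/-! ## Desuspension -/

variable (E : ∀ {K W : LC}, R.Hom K (L.prod W) → Prop)
  (pre : ∀ {K K' W : LC} (φ : PMap K' K.plus) (x : R.Hom K (L.prod W)), E x →
      E (R.comp (R.J φ) x))
  (post : ∀ {K W W' : LC} (φ : PMap W W'.plus) (x : R.Hom K (L.prod W)), E x →
      E (R.comp x (R.J (PMap.ltens L φ))))
  (susp : ∀ {K W : LC} (x : R.Hom K (L.prod W)),
      E (R.comp (R.tens x LC.C) (jh R (Pool.Agent.Helper1.Stab.ascH L W LC.C))) → E x)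

include pre post

theorem of_pl {K W W' M V : LC} (x : R.Hom K (L.prod W)) (p : M ≃ₜ K.prod V)
    (q : L.prod W' ≃ₜ (L.prod W).prod V) (r : W' ≃ₜ W.prod V)
    (hq : ∀ v, q v = ((v.1, (r v.2).1), (r v.2).2)) (h : E (pl R x p q)) :
    E (R.comp (R.tens x V) (jh R (Pool.Agent.Helper1.Stab.ascH L W V))) := by
  rw [pl_aux x p q r hq]
  exact pre _ _ (post _ _ h)

theorem des_point {K W : LC} (x : R.Hom K (L.prod W))
    (h : E (R.comp (R.tens x LC.point) (jh R (Pool.Agent.Helper1.Stab.ascH L W LC.point)))) :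
    E x := by
  have h1 : x = R.comp (R.J (PMap.ofHomeo (Homeomorph.prodPUnit K : K.prod LC.point ≃ₜ K).symm))
      (R.comp (R.comp (R.tens x LC.point) (jh R (Pool.Agent.Helper1.Stab.ascH L W LC.point)))
        (R.J (PMap.ltens L (PMap.ofHomeo (Homeomorph.prodPUnit W : W.prod LC.point ≃ₜ W))))) := by
    rw [← ltens_J, jh_def, jh_def, ltens_jh, tens_eq_pl, pl_jh, pl_jh, jh_pl]
    conv_lhs => rw [eq_pl x]
    exact (pl_congr x (Homeomorph.refl _) _ _ _ _ (fun _ => rfl) (fun _ => rfl)).symm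
  rw [h1]
  exact pre _ _ (post _ _ h)

include susp

theorem des_sus (n : ℕ) : ∀ {K W : LC} (x : R.Hom K (L.prod W)),
    E (R.comp (R.tens x (susL n LC.point))
      (jh R (Pool.Agent.Helper1.Stab.ascH L W (susL n LC.point)))) → E x := by
  induction n with
  | zero => exact fun x h => des_point E pre post x h
  | succ n ih =>
    intro K W x h
    refine susp x (ih _ ?_)
    have h1 : R.comp (R.tens (R.comp (R.tens x LC.C)
        (jh R (Pool.Agent.Helper1.Stab.ascH L W LC.C))) (susL n LC.point))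
        (jh R (Pool.Agent.Helper1.Stab.ascH L (W.prod LC.C) (susL n LC.point))) =
      R.comp (R.J (PMap.ofHomeo (Homeomorph.prodAssoc K LC.C (susL n LC.point) :
        (K.prod LC.C).prod (susL n LC.point) ≃ₜ K.prod (susL (n + 1) LC.point))))
      (R.comp (R.comp (R.tens x (susL (n + 1) LC.point))
        (jh R (Pool.Agent.Helper1.Stab.ascH L W (susL (n + 1) LC.point))))
        (R.J (PMap.ltens L (PMap.ofHomeo (K := W.prod (susL (n + 1) LC.point))
          (L := (W.prod LC.C).prod (susL n LC.point))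
          (Homeomorph.prodAssoc W LC.C (susL n LC.point)).symm)))) := by
      rw [← ltens_J, jh_def, jh_def, ltens_jh, R.tens_comp, tens_jh, R.assoc, ← jh_trans,
        tens_tens_eq_pl, pl_jh, tens_eq_pl x (susL (n + 1) LC.point), pl_jh, pl_jh, jh_pl]
      exact (pl_congr x (Homeomorph.refl _) _ _ _ _ (fun _ => rfl) (fun _ => rfl)).symm
    rw [h1]
    exact pre _ _ (post _ _ h)

theorem des_crd (V : LC) [Crd V] {K W : LC} (x : R.Hom K (L.prod W))
    (h : E (R.comp (R.tens x V) (jh R (Pool.Agent.Helper1.Stab.ascH L W V)))) : E x := by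
  obtain ⟨e, -⟩ := exists_isPerm (X := V) (Y := susL (dm V) LC.point) (by
    rw [dm_sus, dm_point, add_zero])
  refine des_sus E pre post susp (dm V) x ?_
  have h1 : R.comp (R.tens x (susL (dm V) LC.point))
      (jh R (Pool.Agent.Helper1.Stab.ascH L W (susL (dm V) LC.point))) =
      R.comp (R.J (PMap.ofHomeo ((Homeomorph.refl K).prodCongr e.symm :
        K.prod (susL (dm V) LC.point) ≃ₜ K.prod V)))
      (R.comp (R.comp (R.tens x V) (jh R (Pool.Agent.Helper1.Stab.ascH L W V)))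
        (R.J (PMap.ltens L (PMap.ofHomeo ((Homeomorph.refl W).prodCongr e :
          W.prod V ≃ₜ W.prod (susL (dm V) LC.point)))))) := by
    rw [← ltens_J, jh_def, jh_def, ltens_jh, tens_eq_pl, pl_jh, tens_eq_pl, pl_jh, pl_jh, jh_pl]
    refine pl_congr x e _ _ _ _ (fun m => ?_) (fun m => ?_)
    · obtain ⟨k, v⟩ := m
      change ((k, v) : K.prod (susL (dm V) LC.point)) = (k, e (e.symm v))
      rw [e.apply_symm_apply]
    · obtain ⟨l, w, v⟩ := m
      change (((l, w), v) : (L.prod W).prod (susL (dm V) LC.point)) = ((l, w), e (e.symm v))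
      rw [e.apply_symm_apply]
  rw [h1]
  exact pre _ _ (post _ _ h)

omit post susp in
theorem div_xp {V : LC} (a : R.Hom V LC.point)
    (div : ∀ {K W : LC} (x : R.Hom K (L.prod W)), E (R.mulx a x) → E x) (n : ℕ) {K W : LC}
    (x : R.Hom K (L.prod W)) (h : E (R.mulx (NC67.xp a n) x)) : E x := by
  induction n with
  | zero =>
    rw [← mulx_zero a x]
    exact pre _ _ h
  | succ n ih =>
    refine ih (div _ ?_)
    rw [← mulx_mulP a (NC67.xp a n) x]
    exact pre _ _ h

end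

/-! ## The classes of the tautological bundles -/

theorem uni_re (T : GBiv) {κ l : Type} [Fintype κ] [Fintype l] (ε : κ ≃ l) (L : LC) :
    T.uni κ L = T.comp (T.J (PMap.ofHomeo ((GK.reindex ε).prodCongr (Homeomorph.refl L) :
      (LC.G κ).prod L ≃ₜ (LC.G l).prod L))) (T.uni l L) := by
  have h1 := T.g_reindex ε
  rw [jh_def] at h1
  have h2 : T.uni κ L = T.comp (T.tens (T.g κ) L)
    (jh T.toBiv ((LC.lunit L).trans (Homeomorph.prodPUnit L).symm)) := rfl
  have h3 : T.uni l L = T.comp (T.tens (T.g l) L)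
    (jh T.toBiv ((LC.lunit L).trans (Homeomorph.prodPUnit L).symm)) := rfl
  rw [h2, h3, ← h1, T.tens_comp, tens_jh, T.assoc]
  rfl

section
variable {T : GBiv} {L : LC} (E : ∀ {K W : LC}, T.Hom K (L.prod W) → Prop)
  (pre : ∀ {K K' W : LC} (φ : PMap K' K.plus) (x : T.Hom K (L.prod W)), E x →
      E (T.comp (T.J φ) x))
  (post : ∀ {K W W' : LC} (φ : PMap W W'.plus) (x : T.Hom K (L.prod W)), E x →
      E (T.comp x (T.J (PMap.ltens L φ))))
  (tens : ∀ {K W : LC} (V : LC) (x : T.Hom K (L.prod W)), E x →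
      E (T.comp (T.tens x V) (jh T.toBiv (Pool.Agent.Helper1.Stab.ascH L W V))))
  (uni : ∀ n : ℕ, E (T.uni (Fin n) L))

include pre uni in
theorem e_uni (κ : Type) [Fintype κ] : E (T.uni κ L) := by
  rw [uni_re T (Fintype.equivFin κ) L]
  exact pre _ _ (uni _)

/-- the homeomorphism of the target -/
def tgt (C L W : LC) : (C.prod LC.point).prod (L.prod W) ≃ₜ L.prod (W.prod C) where
  toFun v := (v.2.1, (v.2.2, v.1.1))
  invFun v := ((v.2.2, PUnit.unit), (v.1, v.2.1))
  left_inv _ := rfl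
  right_inv _ := rfl
  continuous_toFun := by fun_prop
  continuous_invFun := by fun_prop

/-- the homeomorphism of the source -/
def src (C G L W : LC) : (C.prod G).prod (L.prod W) ≃ₜ (G.prod L).prod (W.prod C) where
  toFun v := ((v.1.2, v.2.1), (v.2.2, v.1.1))
  invFun v := ((v.2.2, v.1.1), (v.1.2, v.2.1))
  left_inv _ := rfl
  right_inv _ := rfl
  continuous_toFun := by fun_prop
  continuous_invFun := by fun_prop

theorem lhs_eq (κ : Type) [Fintype κ] (C L W : LC) :
    T.comp (T.tens (T.ltens C (T.g κ)) (L.prod W)) (jh T.toBiv (tgt C L W)) =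
      T.comp (T.J (PMap.ofHomeo (src C (LC.G κ) L W))) (T.comp (T.comp (T.tens (T.uni κ L)
        (W.prod C)) (jh T.toBiv (Pool.Agent.Helper1.Stab.ascH L LC.point (W.prod C))))
        (T.J (PMap.ltens L (PMap.ofHomeo (LC.lunit (W.prod C)))))) := by
  have h2 : T.uni κ L = T.comp (T.tens (T.g κ) L)
    (jh T.toBiv ((LC.lunit L).trans (Homeomorph.prodPUnit L).symm)) := rfl
  rw [← ltens_J, jh_def, jh_def, ltens_jh, h2, T.tens_comp, tens_jh, ltens_eq_pl, tens_pl, pl_jh,
    tens_tens_eq_pl, pl_jh, pl_jh, pl_jh, jh_pl]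
  exact pl_congr (R := T.toBiv) (T.g κ)
    ({ toFun := fun v => (v.2.2, (v.1, v.2.1))
       invFun := fun v => (v.2.1, (v.2.2, v.1))
       left_inv := fun _ => rfl
       right_inv := fun _ => rfl
       continuous_toFun := by fun_prop
       continuous_invFun := by fun_prop } : L.prod (W.prod C) ≃ₜ C.prod (L.prod W))
    _ _ _ _ (fun _ => rfl) (fun _ => rfl)

include pre post tens uni in
theorem e_lhs {A W : LC} (κ : Type) [Fintype κ] (C : LC)
    (F : PMap A ((C.prod (LC.G κ)).prod (L.prod W)).plus) :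
    E (T.comp (T.comp (T.J F) (T.tens (T.ltens C (T.g κ)) (L.prod W)))
      (jh T.toBiv (tgt C L W))) := by
  rw [T.assoc, lhs_eq]
  exact pre _ _ (pre _ _ (post _ _ (tens _ _ (e_uni E pre uni κ))))

end

section
variable {D : Datum} (T : LocTheory D) {V : LC} [Crd V] (a : T.Hom V LC.point)
  (ha : Like (T.comp (T.J D.s) (T.ltens (LC.cpow D.u) (T.g D.a))) a)

include ha in
theorem induct_gen {L : LC} (E : ∀ {K W : LC}, T.Hom K (L.prod W) → Prop)
    (pre : ∀ {K K' W : LC} (φ : PMap K' K.plus) (x : T.Hom K (L.prod W)), E x →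
      E (T.comp (T.J φ) x))
    (post : ∀ {K W W' : LC} (φ : PMap W W'.plus) (x : T.Hom K (L.prod W)), E x →
      E (T.comp x (T.J (PMap.ltens L φ))))
    (tens : ∀ {K W : LC} (V : LC) (x : T.Hom K (L.prod W)), E x →
      E (T.comp (T.tens x V) (jh T.toBiv (Pool.Agent.Helper1.Stab.ascH L W V))))
    (susp : ∀ {K W : LC} (x : T.Hom K (L.prod W)),
      E (T.comp (T.tens x LC.C) (jh T.toBiv (Pool.Agent.Helper1.Stab.ascH L W LC.C))) → E x)
    (div : ∀ {K W : LC} (x : T.Hom K (L.prod W)), E (T.mulx a x) → E x)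
    (uni : ∀ n : ℕ, E (T.uni (Fin n) L)) {K W : LC} (x : T.Hom K (L.prod W)) : E x := by
  obtain ⟨n, -, F, rfl⟩ := T.cls_surj x 1
  have h1 := T.cls_formula F
  have h2 := e_lhs (T := T.toGBiv) E pre post tens uni (Fin n × Option D.a)
    (LC.cpow (Fin n × Option D.u)) F
  have h3 : Like (T.shatCls (Fin n)) (NC67.xp (R := T.toBiv) a (Fintype.card (Fin n))) :=
    NC67.like_shC (P := T.toGBiv) a ha (Fin n)
  obtain ⟨W2, _, p, q, hp, hq, h4⟩ := h3
  rw [h4] at h1
  have h5 : E (T.comp (T.comp (T.tens (pl T.toBiv (NC67.xp (R := T.toBiv) a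
      (Fintype.card (Fin n))) p q) K) (T.ltens ((LC.cpow (Fin n × Option D.u)).prod LC.point)
        (T.cls F))) (jh T.toBiv (tgt (LC.cpow (Fin n × Option D.u)) L W))) := by
    rw [← h1]
    exact h2
  rw [mulx_pl] at h5
  refine div_xp (R := T.toBiv) E pre a div (Fintype.card (Fin n)) _ ?_
  refine des_crd (R := T.toBiv) E pre post susp W2 _ ?_
  refine of_pl (R := T.toBiv) E pre post _ _ _ ((Homeomorph.refl W).prodCongr
    ((Homeomorph.prodPUnit (LC.cpow (Fin n × Option D.u))).symm.trans (q.trans (lu W2))) :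
      W.prod (LC.cpow (Fin n × Option D.u)) ≃ₜ W.prod W2) (fun v => rfl) h5

end

theorem induct_loop {κ₀ : Type} [Fintype κ₀] {e : ℕ} (he : 0 < e)
    (f : GenLoop (Fin (2 * e)) (GK κ₀) (GK.base κ₀)) (T : LocTheory (loopDatum f))
    (a : T.Hom (LC.cpow (Fin e)) LC.point) (ha : IsHur T.toGBiv f a) {L : LC}
    (E : ∀ {K W : LC}, T.Hom K (L.prod W) → Prop)
    (pre : ∀ {K K' W : LC} (φ : PMap K' K.plus) (x : T.Hom K (L.prod W)), E x →
      E (T.comp (T.J φ) x))
    (post : ∀ {K W W' : LC} (φ : PMap W W'.plus) (x : T.Hom K (L.prod W)), E x →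
      E (T.comp x (T.J (PMap.ltens L φ))))
    (tens : ∀ {K W : LC} (V : LC) (x : T.Hom K (L.prod W)), E x →
      E (T.comp (T.tens x V) (jh T.toBiv (Pool.Agent.Helper1.Stab.ascH L W V))))
    (susp : ∀ {K W : LC} (x : T.Hom K (L.prod W)),
      E (T.comp (T.tens x LC.C) (jh T.toBiv (Pool.Agent.Helper1.Stab.ascH L W LC.C))) → E x)
    (div : ∀ {K W : LC} (x : T.Hom K (L.prod W)), E (T.mulx a x) → E x)
    (uni : ∀ n : ℕ, E (T.uni (Fin n) L)) {K W : LC} (x : T.Hom K (L.prod W)) : E x := by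
  obtain ⟨ρ, h1, h2⟩ := exists_rho T.toBiv he f
  have e1 : a = T.comp ρ (T.g κ₀) :=
    collSph_injective T.toBiv (ha.trans (isHur_rho T.toGBiv f ρ h1).symm)
  have e2 : Like (T.comp (T.J (loopDatum f).s) (T.ltens (LC.cpow (loopDatum f).u)
      (T.g (loopDatum f).a))) a := by
    rw [e1]
    exact cs_datum (R := T.toGBiv) f ρ h2
  exact induct_gen T a e2 E pre post tens susp div uni x

end Pool.Agent.Helper67.Stab.TInd
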