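import Pool.Agent.Helper63.Stab.CalF

/-! Classes `W × K → W' × Z` that are a class `U × K → Z` up to a bijection of coordinates
`W = W' × U`. -/

open CategoryTheory Topology Filter Set Opposite

noncomputable section

namespace Pool.Agent.Helper67.Stab

open Pool.Agent.Helper1.Stab Pool.Agent.Helper63.Stab

variable {R : Biv}

/-! ## Products with spaces with complex coordinates are bijective -/

theorem ltens_of_homeo {T T' : LC} (e : T ≃ₜ T') {K L : LC} (x : R.Hom K L) :
    R.ltens T x = R.comp (jh R (K := T.prod K) (L := T'.prod K) (e.prodCongr (Homeomorph.refl K)))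
      (R.comp (R.ltens T' x) (jh R (K := T'.prod L) (L := T.prod L)
        (e.symm.prodCongr (Homeomorph.refl L)))) := by
  rw [ltens_eq_pl, ltens_eq_pl, pl_jh, jh_pl]
  refine (pl_congr x e.symm _ _ _ _ (fun m => ?_) (fun m => ?_))
  · change ((m.2, m.1) : K.prod T) = (m.2, e.symm (e m.1))
    rw [e.symm_apply_apply]
  · change ((m.2, m.1) : L.prod T) = (m.2, e.symm (e m.1))
    rw [e.symm_apply_apply]

theorem ltens_bij_of_homeo {T T' : LC} (e : T ≃ₜ T') {K L : LC}
    (h : Function.Bijective (fun x : R.Hom K L => R.ltens T' x)) :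
    Function.Bijective (fun x : R.Hom K L => R.ltens T x) := by
  have h1 := (R.invP_homeo (K := T.prod K) (L := T'.prod K)
    (e.prodCongr (Homeomorph.refl K))).pre_bij R (M := T.prod L)
  have h2 := (R.invP_homeo (K := T'.prod L) (L := T.prod L)
    (e.symm.prodCongr (Homeomorph.refl L))).post_bij R (K := T'.prod K)
  have e1 : (fun x : R.Hom K L => R.ltens T x) =
      (fun z => R.comp (R.J (PMap.ofHomeo (K := T.prod K) (L := T'.prod K)
        (e.prodCongr (Homeomorph.refl K)))) z) ∘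
      ((fun z => R.comp z (R.J (PMap.ofHomeo (K := T'.prod L) (L := T.prod L)
        (e.symm.prodCongr (Homeomorph.refl L))))) ∘ (fun x : R.Hom K L => R.ltens T' x)) := by
    funext x
    exact ltens_of_homeo e x
  rw [e1]
  exact h1.comp (h2.comp h)

theorem ltens_point_bij (K L : LC) :
    Function.Bijective (fun x : R.Hom K L => R.ltens LC.point x) := by
  have key : ∀ x : R.Hom K L, R.ltens LC.point x = R.comp (jh R (pS K).symm)
      (R.comp x (jh R (pS L))) := by
    intro x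
    rw [ltens_eq_pl]
    conv_rhs => rw [eq_pl x, pl_jh, jh_pl]
    exact pl_congr x (Homeomorph.refl _) _ _ _ _ (fun _ => rfl) (fun _ => rfl)
  have h1 := (R.invP_homeo (pS K).symm).pre_bij R (M := LC.point.prod L)
  have h2 := (R.invP_homeo (pS L)).post_bij R (K := K)
  have e1 : (fun x : R.Hom K L => R.ltens LC.point x) =
      (fun z => R.comp (R.J (PMap.ofHomeo (pS K).symm)) z) ∘
      (fun z : R.Hom K L => R.comp z (R.J (PMap.ofHomeo (pS L)))) := by
    funext x
    exact key x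
  rw [e1]
  exact h1.comp h2

theorem ltens_prod_eq (T T' : LC) {K L : LC} (x : R.Hom K L) :
    R.ltens (T.prod T') x = R.comp (jh R (K := (T.prod T').prod K) (L := T.prod (T'.prod K))
      (Homeomorph.prodAssoc T T' K)) (R.comp (R.ltens T (R.ltens T' x))
      (jh R (K := T.prod (T'.prod L)) (L := (T.prod T').prod L)
        (Homeomorph.prodAssoc T T' L).symm)) := by
  rw [ltens_eq_pl, ltens_eq_pl x T', ltens_pl, pl_jh, jh_pl]
  exact pl_congr x (Homeomorph.refl _) _ _ _ _ (fun _ => rfl) (fun _ => rfl)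

theorem ltens_prod_bij (T T' : LC) {K L : LC}
    (h' : Function.Bijective (fun x : R.Hom K L => R.ltens T' x))
    (h : Function.Bijective (fun x : R.Hom (T'.prod K) (T'.prod L) => R.ltens T x)) :
    Function.Bijective (fun x : R.Hom K L => R.ltens (T.prod T') x) := by
  have h1 := (R.invP_homeo (K := (T.prod T').prod K) (L := T.prod (T'.prod K))
    (Homeomorph.prodAssoc T T' K)).pre_bij R (M := (T.prod T').prod L)
  have h2 := (R.invP_homeo (K := T.prod (T'.prod L)) (L := (T.prod T').prod L)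
        (Homeomorph.prodAssoc T T' L).symm).post_bij R (K := T.prod (T'.prod K))
  have e1 : (fun x : R.Hom K L => R.ltens (T.prod T') x) =
      (fun z => R.comp (R.J (PMap.ofHomeo (K := (T.prod T').prod K) (L := T.prod (T'.prod K))
        (Homeomorph.prodAssoc T T' K))) z) ∘
      ((fun z => R.comp z (R.J (PMap.ofHomeo (K := T.prod (T'.prod L)) (L := (T.prod T').prod L)
        (Homeomorph.prodAssoc T T' L).symm))) ∘
        ((fun x => R.ltens T x) ∘ (fun x : R.Hom K L => R.ltens T' x))) := by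
    funext x
    exact ltens_prod_eq T T' x
  rw [e1]
  exact h1.comp (h2.comp (h.comp h'))

theorem ltens_sus_bij (n : ℕ) : ∀ (K L : LC),
    Function.Bijective (fun x : R.Hom K L => R.ltens (susL n LC.point) x) := by
  induction n with
  | zero => exact fun K L => ltens_point_bij K L
  | succ n ih =>
    intro K L
    exact ltens_prod_bij LC.C (susL n LC.point) (ih K L) (R.ltens_C_bijective _ _)

theorem ltens_bij (T : LC) [Crd T] (K L : LC) :
    Function.Bijective (fun x : R.Hom K L => R.ltens T x) := by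
  obtain ⟨e, -⟩ := exists_isPerm (X := T) (Y := susL (dm T) LC.point) (by
    rw [dm_sus, dm_point, add_zero])
  exact ltens_bij_of_homeo e (ltens_sus_bij (dm T) K L)

/-! ## The relation -/

/-- `z` is `W' × y` up to a bijection of coordinates `W = W' × U`. -/
def Rel {W W' U K Z : LC} [Crd W] [Crd W'] [Crd U] (z : R.Hom (W.prod K) (W'.prod Z))
    (y : R.Hom (U.prod K) Z) : Prop :=
  ∃ a : W ≃ₜ W'.prod U, IsPerm a ∧ z = R.comp (jh R (rp K a)) (R.ltens W' y)

theorem rp_perm_eq {M K W : LC} [Crd M] [Crd K] [Crd W] (Z : LC) {p p' : M ≃ₜ K.prod W}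
    (h : IsPerm p) (h' : IsPerm p') : jh R (rp Z p) = jh R (rp Z p') := by
  have key : ∀ p : M ≃ₜ K.prod W, jh R (rp Z p) = R.comp (R.tens (jh R p) Z)
      (jh R (K := (K.prod W).prod Z) (L := K.prod (W.prod Z)) (Homeomorph.prodAssoc K W Z)) := by
    intro p
    rw [tens_jh, ← jh_trans]
    exact jh_congr R fun _ => rfl
  rw [key p, key p', IsPerm.jh_eq R h h']

section
variable {W W' U U' K Z : LC} [Crd W] [Crd W'] [Crd U] [Crd U']

theorem Rel.eq_of {z : R.Hom (W.prod K) (W'.prod Z)} {y : R.Hom (U.prod K) Z} (h : Rel z y)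
    {a : W ≃ₜ W'.prod U} (ha : IsPerm a) : z = R.comp (jh R (rp K a)) (R.ltens W' y) := by
  obtain ⟨a', ha', rfl⟩ := h
  rw [rp_perm_eq K ha ha']

theorem Rel.dm_eq {z : R.Hom (W.prod K) (W'.prod Z)} {y : R.Hom (U.prod K) Z} (h : Rel z y) :
    dm W = dm W' + dm U := by
  obtain ⟨a, ha, -⟩ := h
  rw [ha.dm_eq, dm_prod]

theorem exists_rel (z : R.Hom (W.prod K) (W'.prod Z)) (h : dm W = dm W' + dm U) :
    ∃ y : R.Hom (U.prod K) Z, Rel z y := by
  obtain ⟨a, ha⟩ := exists_isPerm (X := W) (Y := W'.prod U) (by rw [dm_prod]; exact h)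
  obtain ⟨y, hy⟩ := (ltens_bij W' (U.prod K) Z).2 (R.comp (jh R (rp K a).symm) z)
  refine ⟨y, a, ha, ?_⟩
  have hy' : R.ltens W' y = R.comp (jh R (rp K a).symm) z := hy
  rw [hy', jh_comp_symm]

theorem Rel.add {z z' : R.Hom (W.prod K) (W'.prod Z)} {y y' : R.Hom (U.prod K) Z} (h : Rel z y)
    (h' : Rel z' y') : Rel (z + z') (y + y') := by
  obtain ⟨a, ha, rfl⟩ := h
  refine ⟨a, ha, ?_⟩
  rw [h'.eq_of ha, R.ltens_add, R.comp_add]

theorem Rel.eq_zero {z : R.Hom (W.prod K) (W'.prod Z)} (h : Rel z (0 : R.Hom (U.prod K) Z)) :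
    z = 0 := by
  obtain ⟨a, ha, rfl⟩ := h
  rw [R.ltens_zero, R.comp_zero]

/-- a change of the coordinates of `U` -/
theorem Rel.of_perm {z : R.Hom (W.prod K) (W'.prod Z)} {y : R.Hom (U'.prod K) Z}
    {p : U ≃ₜ U'} (hp : IsPerm p)
    (h : Rel z (R.comp (jh R (K := U.prod K) (L := U'.prod K) (p.prodCongr (Homeomorph.refl K))) y)) :
    Rel z y := by
  obtain ⟨a, ha, rfl⟩ := h
  refine ⟨a.trans ((Homeomorph.refl W').prodCongr p : W'.prod U ≃ₜ W'.prod U'),
    ha.trans ((IsPerm.refl W').prodCongr hp), ?_⟩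
  rw [ltens_comp, ltens_jh, ← R.assoc, ← jh_trans]
  congr 1

theorem Rel.unique {z : R.Hom (W.prod K) (W'.prod Z)} {y : R.Hom (U.prod K) Z}
    {y' : R.Hom (U'.prod K) Z} (h : Rel z y) (h' : Rel z y') {p : U ≃ₜ U'} (hp : IsPerm p) :
    y = R.comp (jh R (K := U.prod K) (L := U'.prod K) (p.prodCongr (Homeomorph.refl K))) y' := by
  obtain ⟨a, ha, rfl⟩ := h
  have h2 := h'.eq_of (a := a.trans ((Homeomorph.refl W').prodCongr p : W'.prod U ≃ₜ W'.prod U'))
    (ha.trans ((IsPerm.refl W').prodCongr hp))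
  have e1 : jh R (rp K (a.trans ((Homeomorph.refl W').prodCongr p :
      W'.prod U ≃ₜ W'.prod U'))) = R.comp (jh R (rp K a))
      (R.ltens W' (jh R (K := U.prod K) (L := U'.prod K) (p.prodCongr (Homeomorph.refl K)))) := by
    rw [ltens_jh, ← jh_trans]
    exact jh_congr R fun _ => rfl
  rw [e1, R.assoc, ← ltens_comp] at h2
  have h3 := congrArg (fun t => R.comp (jh R (rp K a).symm) t) h2
  simp only at h3
  rw [jh_symm_comp, jh_symm_comp] at h3
  exact (ltens_bij W' _ _).1 h3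

/-- naturality -/
theorem Rel.pre {L : LC} {z : R.Hom (W.prod L) (W'.prod Z)} {y : R.Hom (U.prod L) Z}
    (h : Rel z y) (φ : R.Hom K L) :
    Rel (R.comp (R.ltens W φ) z) (R.comp (R.ltens U φ) y) := by
  obtain ⟨a, ha, rfl⟩ := h
  refine ⟨a, ha, ?_⟩
  rw [ltens_comp, ← R.assoc, ← R.assoc]
  congr 1
  rw [ltens_eq_pl φ W, ltens_eq_pl φ U, ltens_pl, pl_jh, jh_pl]
  refine (pl_congr φ a _ _ _ _ (fun m => rfl) (fun m => ?_)).symm
  obtain ⟨w, u, l⟩ := m
  change ((l, (w, u)) : L.prod (W'.prod U)) = (l, a (a.symm (w, u)))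
  rw [a.apply_symm_apply]

/-- homeomorphisms of coordinates before and after -/
theorem Rel.perms {W2 W2' : LC} [Crd W2] [Crd W2'] {z : R.Hom (W.prod K) (W'.prod Z)}
    {y : R.Hom (U.prod K) Z} (h : Rel z y) {p : W2 ≃ₜ W} {q : W' ≃ₜ W2'} (hp : IsPerm p)
    (hq : IsPerm q) :
    Rel (R.comp (jh R (K := W2.prod K) (L := W.prod K) (p.prodCongr (Homeomorph.refl K)))
      (R.comp z (jh R (K := W'.prod Z) (L := W2'.prod Z) (q.prodCongr (Homeomorph.refl Z))))) y := by
  obtain ⟨a, ha, rfl⟩ := h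
  refine ⟨p.trans (a.trans (q.prodCongr (Homeomorph.refl U) : W'.prod U ≃ₜ W2'.prod U)),
    hp.trans (ha.trans (hq.prodCongr (IsPerm.refl U))), ?_⟩
  have e1 : R.comp (R.ltens W' y) (jh R (K := W'.prod Z) (L := W2'.prod Z)
      (q.prodCongr (Homeomorph.refl Z))) = R.comp (jh R (K := W'.prod (U.prod K))
      (L := W2'.prod (U.prod K)) (q.prodCongr (Homeomorph.refl _))) (R.ltens W2' y) := by
    rw [ltens_eq_pl, ltens_eq_pl]
    exact (pl_comm y q _ _ _ _ _ _ (fun _ => rfl) (fun _ => rfl)).symm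
  rw [R.assoc, e1, ← R.assoc, ← R.assoc, ← jh_trans, ← jh_trans]
  congr 1

/-- suspension -/
theorem Rel.susp {z : R.Hom (W.prod K) (W'.prod Z)} {y : R.Hom (U.prod K) Z} (h : Rel z y)
    (fW : W.prod (LC.C.prod K) ≃ₜ LC.C.prod (W.prod K)) (hW : ∀ v, fW v = (v.2.1, (v.1, v.2.2)))
    (fU : U.prod (LC.C.prod K) ≃ₜ LC.C.prod (U.prod K)) (hU : ∀ v, fU v = (v.2.1, (v.1, v.2.2)))
    (fW' : W'.prod (LC.C.prod Z) ≃ₜ LC.C.prod (W'.prod Z))
    (hW' : ∀ v, fW' v = (v.2.1, (v.1, v.2.2))) :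
    Rel (R.comp (jh R fW) (R.comp (R.ltens LC.C z) (jh R fW'.symm)))
      (R.comp (jh R fU) (R.ltens LC.C y)) := by
  obtain ⟨a, ha, rfl⟩ := h
  refine ⟨a, ha, ?_⟩
  have e1 : R.comp (R.ltens LC.C (R.ltens W' y)) (jh R fW'.symm) =
      R.comp (jh R (K := LC.C.prod (W'.prod (U.prod K))) (L := W'.prod (LC.C.prod (U.prod K)))
        { toFun := fun v => (v.2.1, (v.1, v.2.2))
          invFun := fun v => (v.2.1, (v.1, v.2.2))
          left_inv := fun _ => rfl
          right_inv := fun _ => rfl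
          continuous_toFun := by fun_prop
          continuous_invFun := by fun_prop }) (R.ltens W' (R.ltens LC.C y)) := by
    rw [ltens_eq_pl y W', ltens_pl, ltens_eq_pl y LC.C, ltens_pl]
    refine (pl_comm y (LC.swap LC.C W') _ _ _ _ _ _ (fun _ => rfl) (fun v => ?_)).symm
    have h1 : fW' (fW'.symm v) = v := fW'.apply_symm_apply v
    rw [hW'] at h1
    obtain ⟨c, w, z⟩ := v
    have h2 : fW'.symm (c, (w, z)) = (w, (c, z)) := by
      rw [Homeomorph.symm_apply_eq, hW']
    rw [h2]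
    rfl
  rw [ltens_comp, ltens_jh, R.assoc, e1, ltens_comp, ltens_jh, ← R.assoc, ← R.assoc, ← R.assoc,
    ← jh_trans, ← jh_trans, ← jh_trans]
  congr 1
  refine jh_congr R fun v => ?_
  simp only [Homeomorph.trans_apply, hW]
  change _ = ((a v.1).1, fU ((a v.1).2, v.2))
  rw [hU]
  rfl

end

end Pool.Agent.Helper67.Stab
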