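import Pool.Agent.Helper67.Stab.RelA

/-! Multiplication of the relation with classes to the point. -/

open CategoryTheory Topology Filter Set Opposite

noncomputable section

namespace Pool.Agent.Helper67.Stab

open Pool.Agent.Helper1.Stab Pool.Agent.Helper63.Stab

variable {R : Biv}

theorem jj {K L M N : LC} (e : K ≃ₜ L) (e' : L ≃ₜ M) (x : R.Hom M N) :
    R.comp (jh R e) (R.comp (jh R e') x) = R.comp (jh R (e.trans e')) x := by
  rw [jh_trans, R.assoc]

/-- `pt × Z = Z` -/
def lu (Z : LC) : LC.point.prod Z ≃ₜ Z := Homeomorph.punitProd Z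

/-- multiplication with a class to the point, with the new coordinates in front -/
def mulX {U1 U K Z : LC} (ξ : R.Hom U1 LC.point) (y : R.Hom (U.prod K) Z) :
    R.Hom ((U1.prod U).prod K) Z :=
  R.comp (jh R (K := (U1.prod U).prod K) (L := U1.prod (U.prod K)) (Homeomorph.prodAssoc U1 U K))
    (R.comp (R.tens ξ (U.prod K)) (R.comp (jh R (lu (U.prod K))) y))

theorem mulX_comp_jh {U1 U2 U K Z : LC} (e : U2 ≃ₜ U1) (ξ : R.Hom U1 LC.point)
    (y : R.Hom (U.prod K) Z) : mulX (R.comp (jh R e) ξ) y =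
      R.comp (jh R (K := (U2.prod U).prod K) (L := (U1.prod U).prod K)
        ((e.prodCongr (Homeomorph.refl U)).prodCongr (Homeomorph.refl K))) (mulX ξ y) := by
  rw [mulX, mulX, R.tens_comp, tens_jh, R.assoc, jj, jj]
  congr 1

/-- the product of two classes to the point, the first one first -/
def mulP {U1 U2 : LC} (ξ : R.Hom U1 LC.point) (ξ' : R.Hom U2 LC.point) :
    R.Hom (U1.prod U2) LC.point :=
  R.comp (R.tens ξ U2) (R.comp (jh R (lu U2)) ξ')

theorem lu_nat {K L : LC} (x : R.Hom K L) :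
    R.comp (jh R (lu K)) x = R.comp (R.ltens LC.point x) (jh R (lu L)) := by
  have h1 : R.comp (R.ltens LC.point x) (jh R (lu L)) = pl R x (LC.swap LC.point K)
      ((lu L).symm.trans (LC.swap LC.point L)) := by
    rw [ltens_eq_pl, pl_jh]
  rw [h1]
  conv_lhs => rw [eq_pl x, jh_pl]
  exact pl_congr x (Homeomorph.refl _) _ _ _ _ (fun _ => rfl) (fun _ => rfl)

theorem tens_lu {K : LC} (Z : LC) : R.tens (jh R (lu K)) Z = R.comp
    (jh R (K := (LC.point.prod K).prod Z) (L := LC.point.prod (K.prod Z))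
      (Homeomorph.prodAssoc LC.point K Z)) (jh R (lu (K.prod Z))) := by
  rw [tens_jh, ← jh_trans]
  exact jh_congr R fun _ => rfl

theorem mulX_mulP {U1 U2 U K Z : LC} (ξ : R.Hom U1 LC.point) (ξ' : R.Hom U2 LC.point)
    (y : R.Hom (U.prod K) Z) : mulX (mulP ξ ξ') y =
      R.comp (jh R (K := ((U1.prod U2).prod U).prod K) (L := (U1.prod (U2.prod U)).prod K)
        ((Homeomorph.prodAssoc U1 U2 U).prodCongr (Homeomorph.refl K)))
        (mulX ξ (mulX ξ' y)) := by
  have h1 : R.comp (R.tens ξ (((U2.prod U)).prod K)) (R.comp (jh R (lu ((U2.prod U).prod K)))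
      (R.comp (jh R (K := (U2.prod U).prod K) (L := U2.prod (U.prod K))
        (Homeomorph.prodAssoc U2 U K)) (R.comp (R.tens ξ' (U.prod K))
        (R.comp (jh R (lu (U.prod K))) y)))) =
      R.comp (jh R (K := U1.prod ((U2.prod U).prod K)) (L := (U1.prod U2).prod (U.prod K))
        { toFun := fun v => ((v.1, v.2.1.1), (v.2.1.2, v.2.2))
          invFun := fun v => (v.1.1, ((v.1.2, v.2.1), v.2.2))
          left_inv := fun _ => rfl
          right_inv := fun _ => rfl
          continuous_toFun := by fun_prop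
          continuous_invFun := by fun_prop })
        (R.comp (R.tens (R.tens ξ U2) (U.prod K)) (R.comp (R.tens (jh R (lu U2)) (U.prod K))
        (R.comp (R.tens ξ' (U.prod K)) (R.comp (jh R (lu (U.prod K))) y)))) := by
    have h2 : R.comp (jh R (K := U1.prod ((U2.prod U).prod K)) (L := (U1.prod U2).prod (U.prod K))
        { toFun := fun v => ((v.1, v.2.1.1), (v.2.1.2, v.2.2))
          invFun := fun v => (v.1.1, ((v.1.2, v.2.1), v.2.2))
          left_inv := fun _ => rfl
          right_inv := fun _ => rfl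
          continuous_toFun := by fun_prop
          continuous_invFun := by fun_prop }) (R.tens (R.tens ξ U2) (U.prod K)) =
        R.comp (R.tens ξ (((U2.prod U)).prod K))
          (jh R (K := LC.point.prod ((U2.prod U).prod K)) (L := (LC.point.prod U2).prod (U.prod K))
        { toFun := fun v => ((v.1, v.2.1.1), (v.2.1.2, v.2.2))
          invFun := fun v => (v.1.1, ((v.1.2, v.2.1), v.2.2))
          left_inv := fun _ => rfl
          right_inv := fun _ => rfl
          continuous_toFun := by fun_prop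
          continuous_invFun := by fun_prop }) := by
      rw [tens_tens_eq_pl, tens_eq_pl ξ]
      exact pl_comm ξ (Homeomorph.prodAssoc U2 U K : (U2.prod U).prod K ≃ₜ U2.prod (U.prod K))
        _ _ _ _ _ _ (fun _ => rfl) (fun _ => rfl)
    rw [← R.assoc (jh R _) (R.tens (R.tens ξ U2) _), h2, R.assoc, tens_lu, ← R.assoc (jh R (lu _)),
      ← jh_trans, ← R.assoc (jh R _) (R.comp _ (jh R _)), ← R.assoc (jh R _) (jh R _), ← jh_trans,
      ← jh_trans]
    congr 2
  rw [mulX, mulX, mulX, mulP, R.tens_comp, R.tens_comp]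
  simp only [R.assoc]
  rw [h1, jj, jj]
  congr 1

/-! ## Products with classes like a given class to the point -/

section
variable {W W' U K Z U1 W1 W1' : LC} [Crd W] [Crd W'] [Crd U] [Crd U1] [Crd W1] [Crd W1']

theorem Rel.mul {z : R.Hom (W.prod K) (W'.prod Z)} {y : R.Hom (U.prod K) Z} (h : Rel z y)
    {u : R.Hom W1 W1'} {ξ : R.Hom U1 LC.point} (hu : Like u ξ) :
    Rel (W := W.prod W1) (W' := W'.prod W1') (U := U1.prod U)
      (R.comp (jh R (LC.rr W W1 K)) (R.comp (R.tens z W1) (R.comp (R.ltens (W'.prod Z) u)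
        (jh R (LC.rr W' Z W1'))))) (mulX ξ y) := by
  obtain ⟨a, ha, rfl⟩ := h
  obtain ⟨W2, _, p, q, hp, hq, rfl⟩ := hu
  let a' : W.prod W1 ≃ₜ (W'.prod W1').prod (U1.prod U) :=
    { toFun := fun v => (((a v.1).1, q.symm (PUnit.unit, (p v.2).2)), ((p v.2).1, (a v.1).2))
      invFun := fun v => (a.symm (v.1.1, v.2.2), p.symm (v.2.1, (q v.1.2).2))
      left_inv := fun v => by
        obtain ⟨w, w1⟩ := v
        have h1 : (((a w).1, (a w).2) : W'.prod U) = a w := rfl
        have h2 : (((p w1).1, (p w1).2) : U1.prod W2) = p w1 := rfl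
        simp only [q.apply_symm_apply, h1, h2, a.symm_apply_apply, p.symm_apply_apply]
      right_inv := fun v => by
        obtain ⟨⟨w', w1'⟩, u1, u⟩ := v
        have h1 : ((PUnit.unit, (q w1').2) : LC.point.prod W2) = q w1' := rfl
        simp only [a.apply_symm_apply, p.apply_symm_apply, h1, q.symm_apply_apply]
      continuous_toFun := by fun_prop
      continuous_invFun := by fun_prop }
  have ha' : IsPerm a' := by
    obtain ⟨pa, hpa⟩ := ha
    obtain ⟨pp, hpp⟩ := hp
    obtain ⟨pq, hpq⟩ := hq.symm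
    have s1 : IsPerm (a.prodCongr p : W.prod W1 ≃ₜ (W'.prod U).prod (U1.prod W2)) :=
      IsPerm.prodCongr ⟨pa, hpa⟩ ⟨pp, hpp⟩
    have s2 : IsPerm (mid W' U U1 W2) := mid_perm _ _ _ _
    have s3 : IsPerm (mid W' U1 U W2) := mid_perm _ _ _ _
    have e1 : IsPerm (((Homeomorph.refl W').prodCongr ((pS W2).trans q.symm)).prodCongr
        (Homeomorph.prodComm U U1) : (W'.prod W2).prod (U.prod U1) ≃ₜ
          (W'.prod W1').prod (U1.prod U)) :=
      ((IsPerm.refl W').prodCongr ((pS_perm W2).trans hq.symm)).prodCongr (IsPerm.prodComm U U1)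
    have e2 : IsPerm ((Homeomorph.refl (W'.prod U)).prodCongr (Homeomorph.prodComm U1 W2) :
        (W'.prod U).prod (U1.prod W2) ≃ₜ (W'.prod U).prod (W2.prod U1)) :=
      (IsPerm.refl _).prodCongr (IsPerm.prodComm U1 W2)
    exact (((s1.trans e2).trans (mid_perm W' U W2 U1)).trans e1).of_eq fun _ => rfl
  refine ⟨a', ha', ?_⟩
  -- the homeomorphisms
  have e1 : R.comp (R.tens (R.ltens W' y) W1') (jh R (LC.rr W' Z W1')) =
      R.comp (jh R (LC.rr W' (U.prod K) W1')) (R.ltens (W'.prod W1') y) := by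
    rw [ltens_eq_pl, tens_pl, ltens_eq_pl]
    exact (pl_comm y (Homeomorph.refl _) _ _ _ _ _ _ (fun _ => rfl) (fun _ => rfl)).symm
  have e2 : R.comp (R.tens (R.comp (jh R (rp K a)) (R.ltens W' y)) W1)
      (R.ltens (W'.prod Z) (pl R ξ p q)) = R.comp (jh R (K := (W.prod K).prod W1)
        (L := (W'.prod (U.prod K)).prod W1) ((rp K a).prodCongr (Homeomorph.refl W1)))
        (R.comp (R.ltens (W'.prod (U.prod K)) (pl R ξ p q)) (R.tens (R.ltens W' y) W1')) := by
    rw [R.tens_comp, tens_jh, R.assoc, R.exch]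
  obtain ⟨r, hr⟩ : ∃ r : (W'.prod (U.prod K)).prod W1 ≃ₜ (W'.prod W1').prod (U1.prod (U.prod K)),
      ∀ v, r v = ((v.1.1, q.symm (PUnit.unit, (p v.2).2)), ((p v.2).1, v.1.2)) :=
    ⟨{ toFun := fun v => ((v.1.1, q.symm (PUnit.unit, (p v.2).2)), ((p v.2).1, v.1.2))
       invFun := fun v => ((v.1.1, v.2.2), p.symm (v.2.1, (q v.1.2).2))
       left_inv := fun v => by
         have h2 : (((p v.2).1, (p v.2).2) : U1.prod W2) = p v.2 := rfl
         simp only [q.apply_symm_apply, h2, p.symm_apply_apply]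
       right_inv := fun v => by
         have h1 : ((PUnit.unit, (q v.1.2).2) : LC.point.prod W2) = q v.1.2 := rfl
         simp only [p.apply_symm_apply, h1, q.symm_apply_apply]
       continuous_toFun := by fun_prop
       continuous_invFun := by fun_prop }, fun _ => rfl⟩
  have e3 : R.comp (R.ltens (W'.prod (U.prod K)) (pl R ξ p q)) (jh R (LC.rr W' (U.prod K) W1')) =
      R.comp (jh R r) (R.comp (R.ltens (W'.prod W1') (R.tens ξ (U.prod K)))
        (R.ltens (W'.prod W1') (jh R (lu (U.prod K))))) := by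
    rw [tens_eq_pl ξ, ltens_pl, ltens_pl, ltens_jh, pl_jh, pl_jh, jh_pl]
    refine (pl_congr ξ
      ({ toFun := fun v => ((v.1.1, q.symm (PUnit.unit, v.2)), v.1.2)
         invFun := fun v => ((v.1.1, v.2), (q v.1.2).2)
         left_inv := fun v => by simp only [q.apply_symm_apply]
         right_inv := fun v => by
           have h1 : ((PUnit.unit, (q v.1.2).2) : LC.point.prod W2) = q v.1.2 := rfl
           simp only [h1, q.symm_apply_apply]
         continuous_toFun := by fun_prop
         continuous_invFun := by fun_prop } : (W'.prod (U.prod K)).prod W2 ≃ₜ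
          (W'.prod W1').prod (U.prod K)) _ _ _ _ (fun m => ?_) (fun m => ?_)).symm
    · change _ = ((p m.2).1, ((m.1.1, q.symm (PUnit.unit, (p m.2).2)), m.1.2))
      simp only [Homeomorph.trans_apply, hr]
      rfl
    · obtain ⟨⟨w', w1'⟩, l⟩ := m
      have h1 : ((PUnit.unit, (q w1').2) : LC.point.prod W2) = q w1' := rfl
      change _ = ((q w1').1, ((w', q.symm (PUnit.unit, (q w1').2)), l))
      rw [h1, q.symm_apply_apply]
      rfl
  rw [mulX, ltens_comp, ltens_comp, ltens_comp, ltens_jh R (K := (U1.prod U).prod K)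
    (L := U1.prod (U.prod K)) (Homeomorph.prodAssoc U1 U K)]
  have e4 : R.comp (R.tens (R.comp (jh R (rp K a)) (R.ltens W' y)) W1)
      (R.comp (R.ltens (W'.prod Z) (pl R ξ p q)) (jh R (LC.rr W' Z W1'))) =
      R.comp (jh R (K := (W.prod K).prod W1)
        (L := (W'.prod (U.prod K)).prod W1) ((rp K a).prodCongr (Homeomorph.refl W1)))
        (R.comp (jh R r) (R.comp (R.ltens (W'.prod W1') (R.tens ξ (U.prod K)))
        (R.comp (R.ltens (W'.prod W1') (jh R (lu (U.prod K)))) (R.ltens (W'.prod W1') y)))) := by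
    rw [← R.assoc, e2, R.assoc, R.assoc, e1, ← R.assoc (R.ltens _ (pl R ξ p q)), e3]
    simp only [R.assoc]
  rw [e4, jj, jj, jj]
  congr 1
  refine jh_congr R fun v => ?_
  simp only [Homeomorph.trans_apply, hr]
  rfl

end

theorem tens_id_mulX {U K Z : LC} (y : R.Hom (U.prod K) Z) :
    mulX (R.J (PMap.id LC.point)) y = R.comp (jh R (K := (LC.point.prod U).prod K)
      (L := U.prod K) ((lu U).prodCongr (Homeomorph.refl K))) y := by
  rw [mulX, tens_id, R.id_comp, ← R.assoc, ← jh_trans]
  congr 1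

theorem mulX_perm {V U U' K Z : LC} (p : U ≃ₜ U') (x : R.Hom V LC.point)
    (y : R.Hom (U'.prod K) Z) : mulX x (R.comp (jh R (K := U.prod K) (L := U'.prod K)
      (p.prodCongr (Homeomorph.refl K))) y) = R.comp (jh R (K := (V.prod U).prod K)
        (L := (V.prod U').prod K)
        (((Homeomorph.refl V).prodCongr p).prodCongr (Homeomorph.refl K))) (mulX x y) := by
  have t1 := tens_nat R x (Z := U.prod K) (W := U'.prod K) (p.prodCongr (Homeomorph.refl K))
  rw [mulX, mulX, lu_nat (R.comp _ y), ltens_comp, R.assoc, ← lu_nat y,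
    ltens_jh, ← R.assoc (R.tens x _), t1, R.assoc, jj, jj]
  congr 1

end Pool.Agent.Helper67.Stab
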