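import Pool.Agent.Helper67.Stab.RelB
import Pool.Agent.Helper1.Stab.PR

/-! The classes over `R ∧ BU₊` of the elements of the localisation of `R` at a datum. -/

open CategoryTheory Topology Filter Set Opposite

noncomputable section

namespace Pool.Agent.Helper67.Stab

open Pool.Agent.Helper1.Stab Pool.Agent.Helper63.Stab

variable {R : Biv} (P : PRTheory R)

theorem inc_jh {K L : LC} (e : K ≃ₜ L) : P.inc (jh R e) = jh P.toBiv e := P.inc_J _

theorem inc_ltens {K L : LC} (x : R.Hom K L) (Z : LC) : P.inc (R.ltens Z x) = P.ltens Z (P.inc x) := by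
  rw [ltens_def, ltens_def, P.inc_comp, P.inc_comp, inc_jh, inc_jh, P.inc_tens]

theorem inc_zero (K L : LC) : P.inc (0 : R.Hom K L) = 0 := by
  have h := P.inc_add (0 : R.Hom K L) 0
  simpa using h

/-- `ℂ^(ι × Option u) × pt` -/
abbrev SS (D : Datum) (ι : Type) [Fintype ι] : LC := (LC.cpow (ι × Option D.u)).prod LC.point

/-- the class of the bundle over `B ι` -/
def gh (P : GBiv) (D : Datum) (ι : Type) [Fintype ι] : P.Hom (D.B ι) (SS D ι) :=
  P.ltens (LC.cpow (ι × Option D.u)) (P.g (ι × Option D.a))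

variable {D : Datum} {ι κ : Type} [Fintype ι] [Fintype κ] {K Z : LC}

/-- the class over `R ∧ BU₊` -/
def hat (y : R.Hom ((D.A ι).prod K) ((D.B ι).prod Z)) :
    P.Hom ((D.A ι).prod K) ((SS D ι).prod Z) :=
  P.comp (P.inc y) (P.tens (gh P.toGBiv D ι) Z)

/-- the transition maps of the localisation at a datum -/
def stR (y : R.Hom ((D.A ι).prod K) ((D.B ι).prod Z)) (κ : Type) [Fintype κ] :
    R.Hom ((D.A (ι ⊕ κ)).prod K) ((D.B (ι ⊕ κ)).prod Z) :=
  R.comp (R.J (PMap.ofHomeo (D.domH ι κ K)))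
    (R.comp (R.comp (R.tens y (D.A κ)) (R.ltens ((D.B ι).prod Z) (R.J (D.shat κ))))
      (R.comp (R.J (PMap.ofHomeo (LC.rr (D.B ι) Z (D.B κ)))) (R.tens (R.J (D.mulB ι κ)) Z)))

/-- reindexing -/
def rR (e : ι ≃ κ) (y : R.Hom ((D.A ι).prod K) ((D.B ι).prod Z)) :
    R.Hom ((D.A κ).prod K) ((D.B κ).prod Z) :=
  R.comp (R.tens (R.J (PMap.ofHomeo (Datum.reA D e).symm)) K)
    (R.comp y (R.tens (R.J (PMap.ofHomeo (Datum.reB D e))) Z))

theorem stR_add (y z : R.Hom ((D.A ι).prod K) ((D.B ι).prod Z)) (κ : Type) [Fintype κ] :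
    stR (y + z) κ = stR y κ + stR z κ := by
  rw [stR, stR, stR, R.tens_add, R.add_comp, R.add_comp, R.comp_add]

theorem rR_add (e : ι ≃ κ) (y z : R.Hom ((D.A ι).prod K) ((D.B ι).prod Z)) :
    rR e (y + z) = rR e y + rR e z := by
  rw [rR, rR, rR, R.add_comp, R.comp_add]

theorem hat_add (y z : R.Hom ((D.A ι).prod K) ((D.B ι).prod Z)) :
    hat P (y + z) = hat P y + hat P z := by
  rw [hat, hat, hat, P.inc_add, P.add_comp]

theorem hat_pre {L : LC} (φ : R.Hom K L) (y : R.Hom ((D.A ι).prod L) ((D.B ι).prod Z)) :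
    hat P (R.comp (R.ltens (D.A ι) φ) y) = P.comp (P.ltens (D.A ι) (P.inc φ)) (hat P y) := by
  rw [hat, hat, P.inc_comp, inc_ltens, P.assoc]

/-- `S ι × S κ = S (ι ⊔ κ)` -/
def mS (D : Datum) (ι κ : Type) [Fintype ι] [Fintype κ] :
    (SS D ι).prod (SS D κ) ≃ₜ SS D (ι ⊕ κ) :=
  (mid (LC.cpow (ι × Option D.u)) LC.point (LC.cpow (κ × Option D.u)) LC.point).trans
    ((csum ι κ D.u).prodCongr (Homeomorph.prodPUnit LC.point) :
      ((LC.cpow (ι × Option D.u)).prod (LC.cpow (κ × Option D.u))).prod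
        (LC.point.prod LC.point) ≃ₜ (LC.cpow ((ι ⊕ κ) × Option D.u)).prod LC.point)

theorem mS_perm : IsPerm (mS D ι κ) :=
  (mid_perm _ _ _ _).trans ((csum_perm ι κ D.u).prodCongr (IsPerm.prodPUnit _))

theorem J_mulB' (P : GBiv) : P.comp (P.J (D.mulB ι κ)) (gh P D (ι ⊕ κ)) =
    P.comp (P.tens (gh P D ι) (D.B κ)) (P.comp (P.ltens (SS D ι) (gh P D κ))
      (jh P.toBiv (mS D ι κ))) := J_mulB (R := P) (D := D) ι κ

theorem hat_stR (y : R.Hom ((D.A ι).prod K) ((D.B ι).prod Z)) (κ : Type) [Fintype κ] :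
    hat P (stR y κ) = P.comp (jh P.toBiv (D.domH ι κ K)) (P.comp (P.tens (hat P y) (D.A κ))
      (P.comp (P.ltens ((SS D ι).prod Z) (shC P.toGBiv D κ)) (P.comp
        (jh P.toBiv (LC.rr (SS D ι) Z (SS D κ))) (P.tens (jh P.toBiv (mS D ι κ)) Z)))) := by
  have e1 : P.inc (stR y κ) = P.comp (jh P.toBiv (D.domH ι κ K))
      (P.comp (P.comp (P.tens (P.inc y) (D.A κ)) (P.ltens ((D.B ι).prod Z) (P.J (D.shat κ))))
      (P.comp (jh P.toBiv (LC.rr (D.B ι) Z (D.B κ))) (P.tens (P.J (D.mulB ι κ)) Z))) := by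
    rw [stR, P.inc_comp, P.inc_comp, P.inc_comp, P.inc_comp, P.inc_tens, P.inc_tens, inc_ltens,
      P.inc_J, P.inc_J, P.inc_J, P.inc_J]
    rfl
  have e2 : P.comp (jh P.toBiv (LC.rr (D.B ι) Z (D.B κ))) (P.tens (P.tens (gh P.toGBiv D ι) (D.B κ)) Z)
      = P.comp (P.tens (P.tens (gh P.toGBiv D ι) Z) (D.B κ))
        (jh P.toBiv (LC.rr (SS D ι) Z (D.B κ))) := by
    rw [tens_tens_eq_pl, tens_tens_eq_pl]
    exact pl_comm (R := P.toBiv) (gh P.toGBiv D ι) (LC.swap Z (D.B κ)) _ _ _ _ _ _ (fun _ => rfl)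
      (fun _ => rfl)
  have e3 : P.comp (jh P.toBiv (LC.rr (SS D ι) Z (D.B κ)))
      (P.tens (P.ltens (SS D ι) (gh P.toGBiv D κ)) Z) =
      P.comp (P.ltens ((SS D ι).prod Z) (gh P.toGBiv D κ))
        (jh P.toBiv (LC.rr (SS D ι) Z (SS D κ))) := by
    rw [ltens_eq_pl, tens_pl, ltens_eq_pl]
    exact pl_comm (R := P.toBiv) (gh P.toGBiv D κ) (Homeomorph.refl _) _ _ _ _ _ _ (fun _ => rfl)
      (fun _ => rfl)
  have e4 : P.comp (P.ltens ((D.B ι).prod Z) (P.J (D.shat κ)))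
      (P.tens (P.tens (gh P.toGBiv D ι) Z) (D.B κ)) =
      P.comp (P.tens (P.tens (gh P.toGBiv D ι) Z) (D.A κ))
        (P.ltens ((SS D ι).prod Z) (P.J (D.shat κ))) := (P.exch _ _).symm
  have e5 : P.tens (P.J (D.mulB ι κ)) Z = P.tens (P.J (D.mulB ι κ)) Z := rfl
  have e6 : P.comp (P.tens (P.J (D.mulB ι κ)) Z) (P.tens (gh P.toGBiv D (ι ⊕ κ)) Z) =
      P.comp (P.tens (P.tens (gh P.toGBiv D ι) (D.B κ)) Z) (P.comp
        (P.tens (P.ltens (SS D ι) (gh P.toGBiv D κ)) Z) (P.tens (jh P.toBiv (mS D ι κ)) Z)) := by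
    rw [← P.tens_comp, J_mulB', P.tens_comp, P.tens_comp]
  rw [hat, e1]
  simp only [P.assoc]
  rw [e6, ← P.assoc (jh P.toBiv (LC.rr (D.B ι) Z (D.B κ))), e2, P.assoc,
    ← P.assoc (jh P.toBiv (LC.rr (SS D ι) Z (D.B κ))), e3, P.assoc, ← P.assoc (P.ltens _ _)
      (P.tens (P.tens _ _) _), e4, P.assoc, ← P.assoc (P.tens (P.inc y) _), ← P.tens_comp,
    ← P.assoc (P.ltens ((SS D ι).prod Z) (P.J (D.shat κ))), ← ltens_comp]
  rfl

section
variable {U U1 : LC} [Crd U] [Crd U1]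

theorem rel_stR {y : R.Hom ((D.A ι).prod K) ((D.B ι).prod Z)} {y' : P.Hom (U.prod K) Z}
    (h : Rel (hat P y) y') {ξ : P.Hom U1 LC.point} (hu : Like (shC P.toGBiv D κ) ξ) :
    Rel (hat P (stR y κ)) (mulX (R := P.toBiv) ξ y') := by
  have h1 := (h.mul hu).perms (splitA_perm (D := D) ι κ) (mS_perm (D := D) (ι := ι) (κ := κ))
  have e1 : hat P (stR y κ) = P.comp (jh P.toBiv (K := (D.A (ι ⊕ κ)).prod K)
      (L := ((D.A ι).prod (D.A κ)).prod K) ((D.splitA ι κ).prodCongr (Homeomorph.refl K)))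
      (P.comp (P.comp (jh P.toBiv (LC.rr (D.A ι) (D.A κ) K)) (P.comp (P.tens (hat P y) (D.A κ))
        (P.comp (P.ltens ((SS D ι).prod Z) (shC P.toGBiv D κ))
        (jh P.toBiv (LC.rr (SS D ι) Z (SS D κ))))))
        (jh P.toBiv (K := ((SS D ι).prod (SS D κ)).prod Z) (L := (SS D (ι ⊕ κ)).prod Z)
          ((mS D ι κ).prodCongr (Homeomorph.refl Z)))) := by
    rw [hat_stR, tens_jh]
    simp only [P.assoc]
    rw [jj]
    rfl
  rw [e1]
  exact h1

theorem jh_reB (P : GBiv) (e : ι ≃ κ) : P.comp (jh P.toBiv (D.reB e)) (gh P D κ) =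
    P.comp (gh P D ι) (P.tens (jh P.toBiv (cre e D.u)) LC.point) := by
  have h2 : jh P.toBiv (D.reB e) = P.comp (P.tens (jh P.toBiv (cre e D.u)) _)
      (P.ltens _ (jh P.toBiv (K := LC.G (ι × Option D.a)) (L := LC.G (κ × Option D.a))
        (GK.reindex (e.prodCongr (Equiv.refl _))))) := by
    rw [tens_jh, ltens_jh, ← jh_trans]
    exact jh_congr _ fun _ => rfl
  have h3 : P.comp (jh P.toBiv (K := LC.G (ι × Option D.a)) (L := LC.G (κ × Option D.a))
        (GK.reindex (e.prodCongr (Equiv.refl _)))) (P.g (κ × Option D.a)) = P.g (ι × Option D.a) :=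
    P.g_reindex _
  rw [gh, gh, h2, P.assoc, ← ltens_comp, h3, P.exch]

theorem rel_rR (e : ι ≃ κ) {y : R.Hom ((D.A ι).prod K) ((D.B ι).prod Z)}
    {y' : P.Hom (U.prod K) Z} (h : Rel (hat P y) y') : Rel (hat P (rR e y)) y' := by
  have h1 := h.perms (W2 := D.A κ) (W2' := SS D κ) (p := (D.reA e).symm)
    (q := ((cre e D.u).prodCongr (Homeomorph.refl _) : SS D ι ≃ₜ SS D κ)) (reA_perm e).symm
    ((cperm_perm _).prodCongr (IsPerm.refl _))
  have e1 : hat P (rR e y) = P.comp (jh P.toBiv (K := (D.A κ).prod K) (L := (D.A ι).prod K)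
      ((D.reA e).symm.prodCongr (Homeomorph.refl K))) (P.comp (hat P y)
        (jh P.toBiv (K := (SS D ι).prod Z) (L := (SS D κ).prod Z)
        (((cre e D.u).prodCongr (Homeomorph.refl _) : SS D ι ≃ₜ SS D κ).prodCongr
          (Homeomorph.refl Z)))) := by
    rw [hat, rR, P.inc_comp, P.inc_comp, P.inc_tens, P.inc_tens, P.inc_J, P.inc_J, jh_def, jh_def,
      P.assoc, P.assoc, ← P.tens_comp, jh_reB, P.tens_comp, tens_jh, tens_jh, tens_jh, hat, P.assoc]
  rw [e1]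
  exact h1

/-- suspension -/
theorem rel_susp {y : R.Hom ((D.A ι).prod K) ((D.B ι).prod Z)} {y' : P.Hom (U.prod K) Z}
    (h : Rel (hat P y) y') (fA : (D.A ι).prod (LC.C.prod K) ≃ₜ LC.C.prod ((D.A ι).prod K))
    (hA : ∀ v, fA v = (v.2.1, (v.1, v.2.2)))
    (fB : (D.B ι).prod (LC.C.prod Z) ≃ₜ LC.C.prod ((D.B ι).prod Z))
    (hB : ∀ v, fB v = (v.2.1, (v.1, v.2.2)))
    (fU : U.prod (LC.C.prod K) ≃ₜ LC.C.prod (U.prod K)) (hU : ∀ v, fU v = (v.2.1, (v.1, v.2.2))) :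
    Rel (hat P (R.comp (jh R fA) (R.comp (R.ltens LC.C y) (jh R fB.symm))))
      (P.comp (jh P.toBiv fU) (P.ltens LC.C y')) := by
  obtain ⟨fS, hS⟩ : ∃ fS : (SS D ι).prod (LC.C.prod Z) ≃ₜ LC.C.prod ((SS D ι).prod Z),
      ∀ v, fS v = (v.2.1, (v.1, v.2.2)) :=
    ⟨{ toFun := fun v => (v.2.1, (v.1, v.2.2))
       invFun := fun v => (v.2.1, (v.1, v.2.2))
       left_inv := fun _ => rfl
       right_inv := fun _ => rfl
       continuous_toFun := by fun_prop
       continuous_invFun := by fun_prop }, fun _ => rfl⟩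
  have h1 := h.susp fA hA fU hU fS hS
  have e1 : P.comp (jh P.toBiv fB.symm) (P.tens (gh P.toGBiv D ι) (LC.C.prod Z)) =
      P.comp (P.ltens LC.C (P.tens (gh P.toGBiv D ι) Z)) (jh P.toBiv fS.symm) := by
    rw [tens_eq_pl, tens_eq_pl, ltens_pl]
    refine pl_comm (R := P.toBiv) (gh P.toGBiv D ι) (Homeomorph.refl _) _ _ _ _ _ _
      (fun v => ?_) (fun v => ?_)
    · have h2 : fB.symm v = (v.2.1, (v.1, v.2.2)) := by
        rw [Homeomorph.symm_apply_eq, hB]
      rw [h2]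
      rfl
    · have h2 : fS.symm v = (v.2.1, (v.1, v.2.2)) := by
        rw [Homeomorph.symm_apply_eq, hS]
      rw [h2]
      rfl
  have e2 : hat P (R.comp (jh R fA) (R.comp (R.ltens LC.C y) (jh R fB.symm))) =
      P.comp (jh P.toBiv fA) (P.comp (P.ltens LC.C (hat P y)) (jh P.toBiv fS.symm)) := by
    rw [hat, P.inc_comp, P.inc_comp, inc_jh, inc_jh, inc_ltens, P.assoc, P.assoc, e1, hat,
      ltens_comp, P.assoc]
  rw [e2]
  exact h1

end

/-! ## Elements with vanishing class -/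

/-- adding base points in the free slots -/
def ab (a κ : Type) [Fintype a] [Fintype κ] : PMap (LC.G (κ × a)) (LC.G (κ × Option a)).plus :=
  PMap.ofProper (K := LC.G (κ × a)) (L := LC.G (κ × Option a))
    (fun Q => GK.reindex (optEquiv κ a) (GK.sum (GK.base κ, Q)))
    ((GK.reindex (optEquiv κ a)).continuous.comp (GK.continuous_sum.comp
      (continuous_const.prodMk continuous_id)))
    (by rw [cocompact_eq_bot]; exact tendsto_bot)

theorem sum_inj {κ l : Type} [Fintype κ] [Fintype l] {A : GK κ} {Q Q' : GK l}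
    (h : GK.sum (A, Q) = GK.sum (A, Q')) : Q = Q' := by
  refine Subtype.ext ?_
  ext x y
  have h1 := congrArg Subtype.val h
  exact congrFun (congrFun h1 (Sum.inr x.1, x.2)) (Sum.inr y.1, y.2)

/-- `s` with the base points left out -/
theorem shat_factor (D : Datum) (κ : Type) [Fintype κ] :
    ∃ s0 : PMap (D.A κ) ((LC.cpow (κ × Option D.u)).prod (LC.G (κ × D.a))).plus,
      D.shat κ = (PMap.ltens (LC.cpow (κ × Option D.u)) (ab D.a κ)).comp s0 := by
  obtain ⟨j, hj⟩ : ∃ j, j = PMap.ltens (LC.cpow (κ × Option D.u)) (ab D.a κ) := ⟨_, rfl⟩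
  have hj' : ∀ (c : LC.cpow (κ × Option D.u)) (Q : GK (κ × D.a)), j (c, Q) =
      (((c, GK.reindex (optEquiv κ D.a) (GK.sum (GK.base κ, Q))) : D.B κ) :
        OnePoint (D.B κ)) := by
    intro c Q
    rw [hj]
    rfl
  have hinj : Function.Injective j.plus := by
    intro x y hxy
    induction x using OnePoint.rec with
    | infty =>
      induction y using OnePoint.rec with
      | infty => rfl
      | coe y =>
        obtain ⟨c, Q⟩ := y
        have h1 : (OnePoint.infty : OnePoint (D.B κ)) = j (c, Q) := hxy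
        rw [hj'] at h1
        exact absurd h1 (OnePoint.infty_ne_coe _)
    | coe x =>
      obtain ⟨c, Q⟩ := x
      induction y using OnePoint.rec with
      | infty =>
        have h1 : j (c, Q) = (OnePoint.infty : OnePoint (D.B κ)) := hxy
        rw [hj'] at h1
        exact absurd h1.symm (OnePoint.infty_ne_coe _)
      | coe y =>
        obtain ⟨c', Q'⟩ := y
        have h1 : j (c, Q) = j (c', Q') := hxy
        rw [hj', hj'] at h1
        have h2 := OnePoint.coe_injective h1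
        have h3 : c = c' := congrArg Prod.fst h2
        have h4 : GK.reindex (optEquiv κ D.a) (GK.sum (GK.base κ, Q)) =
            GK.reindex (optEquiv κ D.a) (GK.sum (GK.base κ, Q')) := congrArg Prod.snd h2
        have h5 := sum_inj ((GK.reindex (optEquiv κ D.a)).injective h4)
        rw [h3, h5]
  have hemb := j.continuous_plus.isClosedEmbedding hinj
  have hr : ∀ w : D.A κ, ∃ z, j.plus z = D.shat κ w := by
    intro w
    have hw : D.shat κ w = D.shatGFun κ (w, GK.base κ) := rfl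
    by_cases h : ∀ i : κ, ∃ y : (D.u → ℂ) × GK D.a, D.s (fun j => w (i, some j)) =
        ((y : (D.u → ℂ) × GK D.a) : OnePoint ((D.u → ℂ) × GK D.a))
    · refine ⟨(((fun x => match x.2 with
        | none => w (x.1, none)
        | some j => (h x.1).choose.1 j, blockDiag fun i => (h i).choose.2) :
          (LC.cpow (κ × Option D.u)).prod (LC.G (κ × D.a))) :
          OnePoint ((LC.cpow (κ × Option D.u)).prod (LC.G (κ × D.a)))), ?_⟩
      refine (hj' _ _).trans ?_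
      rw [hw]
      unfold Datum.shatGFun
      rw [dif_pos h]
      rfl
    · refine ⟨OnePoint.infty, ?_⟩
      rw [hw]
      unfold Datum.shatGFun
      rw [dif_neg h]
      rfl
  choose s0 hs0 using hr
  have e1 : j.plus ∘ s0 = D.shat κ := funext hs0
  refine ⟨⟨s0, ?_, ?_⟩, ?_⟩
  · rw [hemb.isInducing.continuous_iff, e1]
    exact (D.shat κ).cont
  · rw [hemb.isInducing.tendsto_nhds_iff, e1]
    exact (D.shat κ).infty
  · rw [← hj]
    refine PMap.ext fun w => ?_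
    exact (hs0 w).symm

/-- the coordinates of a sum with free slots -/
def slotE (ι κ a : Type) : ((ι × Option a) ⊕ κ) ⊕ (κ × a) ≃ (ι ⊕ κ) × Option a :=
  (Equiv.sumAssoc (ι × Option a) κ (κ × a)).trans
    (((Equiv.refl (ι × Option a)).sumCongr (optEquiv κ a)).trans
      (Equiv.sumProdDistrib ι κ (Option a)).symm)

theorem slot_eq {ι κ a : Type} [Fintype ι] [Fintype κ] [Fintype a] (A : GK (ι × Option a))
    (Q : GK (κ × a)) : GK.reindex (Equiv.sumProdDistrib ι κ (Option a)).symm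
      (GK.sum (A, GK.reindex (optEquiv κ a) (GK.sum (GK.base κ, Q)))) =
      GK.reindex (slotE ι κ a) (GK.sum (GK.sum (A, GK.base κ), Q)) := by
  refine Subtype.ext ?_
  ext ⟨⟨i | i, _ | j⟩, b⟩ ⟨⟨i' | i', _ | j'⟩, b'⟩ <;> rfl

theorem exists_factor (D : Datum) (ι κ : Type) [Fintype ι] [Fintype κ] (Z : LC) :
    ∃ Ψ : PMap ((((LC.cpow (ι × Option D.u)).prod (LC.G ((ι × Option D.a) ⊕ κ))).prod Z).prod
        ((LC.cpow (κ × Option D.u)).prod (LC.G (κ × D.a)))) ((D.B (ι ⊕ κ)).prod Z).plus,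
      ((D.mulB ι κ).tens Z).comp ((PMap.ofHomeo (LC.rr (D.B ι) Z (D.B κ))).comp
        (PMap.ltens ((D.B ι).prod Z) (PMap.ltens (LC.cpow (κ × Option D.u)) (ab D.a κ)))) =
      Ψ.comp (PMap.tens (PMap.tens (PMap.ltens (LC.cpow (ι × Option D.u))
        (GK.stab (ι × Option D.a) κ)) Z) ((LC.cpow (κ × Option D.u)).prod (LC.G (κ × D.a)))) := by
  refine ⟨(PMap.tens (((PMap.ofHomeo (csum ι κ D.u)).box
      ((PMap.ofHomeo (K := LC.G (((ι × Option D.a) ⊕ κ) ⊕ (κ × D.a)))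
        (L := LC.G ((ι ⊕ κ) × Option D.a)) (GK.reindex (slotE ι κ D.a))).comp
          (GK.sumMap ((ι × Option D.a) ⊕ κ) (κ × D.a)))).comp
      (PMap.ofHomeo (mid (LC.cpow (ι × Option D.u)) (LC.G ((ι × Option D.a) ⊕ κ))
        (LC.cpow (κ × Option D.u)) (LC.G (κ × D.a))))) Z).comp
      (PMap.ofHomeo (LC.rr ((LC.cpow (ι × Option D.u)).prod (LC.G ((ι × Option D.a) ⊕ κ))) Z
        ((LC.cpow (κ × Option D.u)).prod (LC.G (κ × D.a))))), ?_⟩
  refine PMap.ext ?_
  rintro ⟨⟨⟨c, A⟩, z⟩, c', Q⟩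
  have h := slot_eq A Q
  exact congrArg (fun X : GK ((ι ⊕ κ) × Option D.a) =>
    ((((csum ι κ D.u (c, c'), X), z) : (D.B (ι ⊕ κ)).prod Z) :
      OnePoint ((D.B (ι ⊕ κ)).prod Z))) h

theorem stR_eq_zero (y : R.Hom ((D.A ι).prod K) ((D.B ι).prod Z)) (h : hat P y = 0) :
    ∃ m : ℕ, stR y (Fin m) = 0 := by
  have e1 : P.comp (jh P.toBiv (outB (LC.cpow (ι × Option D.u)) (LC.G (ι × Option D.a)) Z))
      (P.tens (P.g (ι × Option D.a)) ((LC.cpow (ι × Option D.u)).prod Z)) =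
      P.comp (P.tens (gh P.toGBiv D ι) Z)
        (jh P.toBiv (outB (LC.cpow (ι × Option D.u)) LC.point Z)) := by
    rw [gh, ltens_eq_pl, tens_pl, tens_eq_pl]
    exact pl_comm (R := P.toBiv) (P.g (ι × Option D.a)) (Homeomorph.refl _) _ _ _ _ _ _
      (fun _ => rfl) (fun _ => rfl)
  obtain ⟨m, hm⟩ := P.eq_zero (R.comp y (jh R (outB (LC.cpow (ι × Option D.u))
    (LC.G (ι × Option D.a)) Z))) (by
      rw [P.inc_comp, inc_jh, P.assoc, ← P.assoc (jh P.toBiv _), e1, P.assoc, ← P.assoc (P.inc y)]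
      have h' : P.comp (P.inc y) (P.tens (gh P.toGBiv D ι) Z) = 0 := h
      rw [h', P.zero_comp])
  refine ⟨m, ?_⟩
  have e2 : R.comp (jh R (outB (LC.cpow (ι × Option D.u)) (LC.G (ι × Option D.a)) Z))
      (R.tens (R.J (GK.stab (ι × Option D.a) (Fin m))) ((LC.cpow (ι × Option D.u)).prod Z)) =
      R.comp (R.tens (R.ltens (LC.cpow (ι × Option D.u))
        (R.J (GK.stab (ι × Option D.a) (Fin m)))) Z)
        (jh R (outB (LC.cpow (ι × Option D.u)) (LC.G ((ι × Option D.a) ⊕ Fin m)) Z)) := by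
    rw [ltens_eq_pl, tens_pl, tens_eq_pl]
    exact pl_comm (R.J (GK.stab (ι × Option D.a) (Fin m))) (Homeomorph.refl _) _ _ _ _ _ _
      (fun _ => rfl) (fun _ => rfl)
  have e3 : R.comp y (R.tens (R.ltens (LC.cpow (ι × Option D.u))
        (R.J (GK.stab (ι × Option D.a) (Fin m)))) Z) = 0 := by
    rw [R.assoc, e2] at hm
    have h2 := congrArg (fun t => R.comp t (jh R (outB (LC.cpow (ι × Option D.u))
      (LC.G ((ι × Option D.a) ⊕ Fin m)) Z).symm)) hm
    simp only [R.assoc, R.zero_comp] at h2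
    rw [jh_comp_symm', R.comp_id] at h2
    exact h2
  obtain ⟨s0, hs0⟩ := shat_factor D (Fin m)
  obtain ⟨Ψ, hΨ⟩ := exists_factor D ι (Fin m) Z
  have e4 : R.comp (R.ltens ((D.B ι).prod Z) (R.ltens (LC.cpow (Fin m × Option D.u))
      (R.J (ab D.a (Fin m))))) (R.comp (R.J (PMap.ofHomeo (LC.rr (D.B ι) Z (D.B (Fin m)))))
        (R.tens (R.J (D.mulB ι (Fin m))) Z)) = R.comp (R.tens (R.tens (R.ltens
          (LC.cpow (ι × Option D.u)) (R.J (GK.stab (ι × Option D.a) (Fin m)))) Z)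
          ((LC.cpow (Fin m × Option D.u)).prod (LC.G (Fin m × D.a)))) (R.J Ψ) := by
    rw [ltens_J, ltens_J, ltens_J, R.tens_J, R.tens_J, R.tens_J, ← R.J_comp, ← R.J_comp,
      ← R.J_comp, ← hΨ, PMap.comp_assoc]
  have e5 : R.comp (R.tens y (D.A (Fin m))) (R.ltens ((D.B ι).prod Z) (R.J (D.shat (Fin m)))) =
      R.comp (R.ltens ((D.A ι).prod K) (R.J s0)) (R.comp (R.tens y _)
        (R.ltens ((D.B ι).prod Z) (R.ltens (LC.cpow (Fin m × Option D.u))
      (R.J (ab D.a (Fin m)))))) := by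
    rw [hs0, R.J_comp, ← ltens_J, ltens_comp, ← R.assoc, R.exch, R.assoc]
  rw [stR, e5]
  simp only [R.assoc]
  rw [e4, ← R.assoc (R.tens y _), ← R.tens_comp, e3, R.tens_zero, R.zero_comp, R.comp_zero,
    R.comp_zero]

end Pool.Agent.Helper67.Stab
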